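import Mathlib
import Pool.Agent.N984.TW.Ens

/-!
# Gauge fixing and dummy variables
-/

open MeasureTheory Matrix Filter
open scoped Matrix.Norms.Frobenius Topology ENNReal
open Pool.Agent.H906R3.YM Pool.Agent.W793.YM Pool.Agent.TH618.YM

namespace Pool.Agent.N984.TW.RA

set_option linter.unusedSectionVars false
set_option linter.unusedVariables false

noncomputable section

/-- Tonelli for products. -/
theorem lintegral_pi_prod {ι : Type*} [Fintype ι] {E : ι → Type*} [∀ i, MeasurableSpace (E i)]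
    (μ : ∀ i, Measure (E i)) [∀ i, IsProbabilityMeasure (μ i)] (f : ∀ i, E i → ℝ≥0∞)
    (hf : ∀ i, Measurable (f i)) :
    ∫⁻ x, ∏ i, f i (x i) ∂(Measure.pi μ) = ∏ i, ∫⁻ y, f i y ∂(μ i) := by
  have h := ProbabilityTheory.lintegral_prod_eq_prod_lintegral_of_indepFun Finset.univ
    (fun i (x : ∀ i, E i) => f i (x i))
    (ProbabilityTheory.iIndepFun_pi (μ := μ) (X := f) fun i => (hf i).aemeasurable)
    (fun i => (hf i).comp (measurable_pi_apply i))
  rw [h]
  refine Finset.prod_congr rfl fun i _ => ?_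
  exact (measurePreserving_eval μ i).lintegral_comp (hf i)

/-- Averaging trick. -/
theorem avg {Ω H : Type*} [MeasurableSpace Ω] [MeasurableSpace H] (P : Measure Ω) [SFinite P]
    (η : Measure H) [SFinite η] (τ : H → Ω → Ω) (hτ : Measurable (Function.uncurry τ))
    (hP : ∀ h, MeasurePreserving (τ h) P P) {f u : Ω → ℝ≥0∞} (hf : Measurable f)
    (hu : Measurable u) (hi : ∀ h σ, f (τ h σ) = f σ) {C : ℝ≥0∞}
    (hC : ∀ σ, ∫⁻ h, u (τ h σ) ∂η = C) :
    η Set.univ * ∫⁻ σ, f σ * u σ ∂P = C * ∫⁻ σ, f σ ∂P := by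
  have h1 : ∀ h, ∫⁻ σ, f σ * u (τ h σ) ∂P = ∫⁻ σ, f σ * u σ ∂P := by
    intro h
    rw [← (hP h).lintegral_comp (f := fun σ => f σ * u σ) (hf.mul hu)]
    exact lintegral_congr fun σ => by rw [hi h σ]
  calc η Set.univ * ∫⁻ σ, f σ * u σ ∂P = ∫⁻ _ : H, ∫⁻ σ, f σ * u σ ∂P ∂η := by
        rw [lintegral_const, mul_comm]
    _ = ∫⁻ h, ∫⁻ σ, f σ * u (τ h σ) ∂P ∂η := lintegral_congr fun h => (h1 h).symm
    _ = ∫⁻ σ, ∫⁻ h, f σ * u (τ h σ) ∂η ∂P := by
        rw [lintegral_lintegral_swap]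
        exact ((hf.comp measurable_snd).mul (hu.comp hτ)).aemeasurable
    _ = ∫⁻ σ, f σ * C ∂P := by
        refine lintegral_congr fun σ => ?_
        have m : Measurable fun h => u (τ h σ) := hu.comp (hτ.comp (measurable_id.prodMk measurable_const))
        rw [lintegral_const_mul _ m, hC]
    _ = C * ∫⁻ σ, f σ ∂P := by rw [lintegral_mul_const _ hf, mul_comm]

/-- Averaging trick, probability measures. -/
theorem avg1 {Ω H : Type*} [MeasurableSpace Ω] [MeasurableSpace H] (P : Measure Ω) [SFinite P]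
    (η : Measure H) [IsProbabilityMeasure η] (τ : H → Ω → Ω)
    (hτ : Measurable (Function.uncurry τ))
    (hP : ∀ h, MeasurePreserving (τ h) P P) {f u : Ω → ℝ≥0∞} (hf : Measurable f)
    (hu : Measurable u) (hi : ∀ h σ, f (τ h σ) = f σ) {C : ℝ≥0∞}
    (hC : ∀ σ, ∫⁻ h, u (τ h σ) ∂η = C) :
    ∫⁻ σ, f σ * u σ ∂P = C * ∫⁻ σ, f σ ∂P := by
  rw [← avg P η τ hτ hP hf hu hi hC, measure_univ, one_mul]

/-! ### gauge transformations in a region -/

section algebra

variable {N l : ℕ} (Λ : Finset Pl)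

/-- extension of a gauge transformation by `1` -/
def exH (h : Λ → Tor l → SU N) : Pl → Tor l → SU N := fun X =>
  if hX : X ∈ Λ then h ⟨X, hX⟩ else 1

/-- gauge transformation in a region -/
def gtL (h : Λ → Tor l → SU N) (u : Λ → Fib N l) : Λ → Fib N l := fun X p =>
  h X p.1 * u X p * (exH Λ h (X.1 + eP p.2) (p.1 + eT l p.2))⁻¹

lemma exH_coe (h : Λ → Tor l → SU N) (X : Λ) : exH Λ h X.1 = h X := by
  unfold exH
  rw [dif_pos X.2]

lemma ext_coe (u : Λ → Fib N l) (X : Λ) : ext Λ u X.1 = u X := by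
  unfold ext
  rw [dif_pos X.2]

lemma ext_gtL (h : Λ → Tor l → SU N) (u : Λ → Fib N l) {X : Pl} (hX : X ∈ Λ) :
    ext Λ (gtL Λ h u) X = gt (exH Λ h) (ext Λ u) X := by
  have h1 := ext_coe Λ (gtL Λ h u) ⟨X, hX⟩
  have h2 := ext_coe Λ u ⟨X, hX⟩
  have h3 := exH_coe Λ h ⟨X, hX⟩
  rw [h1]
  funext p
  unfold gtL gt
  rw [h2, h3]

/-- functions of the links over `Λ` which are gauge invariant are invariant under `gtL`. -/
theorem inv_gtL {α : Type*} {f : (Pl → Fib N l) → α} (hf : GaugeInv f) (hD : DepOn f Λ)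
    (h : Λ → Tor l → SU N) (u : Λ → Fib N l) : f (ext Λ (gtL Λ h u)) = f (ext Λ u) := by
  rw [← hf (exH Λ h) (ext Λ u)]
  refine hD _ _ fun X p hX _ => ?_
  rw [ext_gtL Λ h u hX]

lemma phi_gtL (h : Λ → Tor l → SU N) (u : Λ → Fib N l) (X : Λ) :
    phi (gtL Λ h u X) = act sE tE (h X) (phi (u X)) := by
  have h1 := phi_gt (exH Λ h) (ext Λ u) X.1
  rw [← ext_gtL Λ h u X.2, ext_coe, ext_coe, exH_coe] at h1
  exact h1

/-- plaquette variables transform by conjugation -/
theorem plaq_gt (h : Pl → Tor l → SU N) (U : Pl → Fib N l) (X : Pl) (y : Tor l) (i j : Fin 4) :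
    plaq (gt h U) X y i j = h X y * plaq U X y i j * (h X y)⁻¹ := by
  unfold plaq gt
  have h1 : X + eP j + eP i = X + eP i + eP j := by abel
  have h2 : y + eT l j + eT l i = y + eT l i + eT l j := by abel
  simp only [h1, h2]
  group

lemma pe_gt (z : ℂ) (h : Pl → Tor l → SU N) (U : Pl → Fib N l) (X : Pl) (y : Tor l)
    (i j : Fin 4) : pe z (gt h U) X y i j = pe z U X y i j := by
  unfold pe
  rw [plaq_gt]
  have h1 : trace (((h X y * plaq U X y i j * (h X y)⁻¹ : SU N) : Matrix.unitaryGroup (Fin N) ℂ) :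
      Matrix (Fin N) (Fin N) ℂ) = trace ((plaq U X y i j : Matrix.unitaryGroup (Fin N) ℂ) :
      Matrix (Fin N) (Fin N) ℂ) := by
    have e : ∀ a b : SU N, (((a * b : SU N) : Matrix.unitaryGroup (Fin N) ℂ) :
        Matrix (Fin N) (Fin N) ℂ) = ((a : Matrix.unitaryGroup (Fin N) ℂ) :
        Matrix (Fin N) (Fin N) ℂ) * ((b : Matrix.unitaryGroup (Fin N) ℂ) :
        Matrix (Fin N) (Fin N) ℂ) := fun _ _ => rfl
    rw [e, trace_mul_comm, ← e, ← mul_assoc, inv_mul_cancel, one_mul]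
  rw [h1]

/-- the action is gauge invariant -/
theorem action_gaugeInv [NeZero l] (z : ℂ) :
    GaugeInv (action z Λ : (Pl → Fib N l) → ℝ) := by
  intro h U
  unfold action
  simp only [pe_gt]

/-- the action depends on the links over `Λ` -/
theorem action_depOn [NeZero l] (z : ℂ) : DepOn (action z Λ : (Pl → Fib N l) → ℝ) Λ := by
  intro U U' h
  unfold action
  refine Finset.sum_congr rfl fun X hX => Finset.sum_congr rfl fun y _ =>
    Finset.sum_congr rfl fun i _ => Finset.sum_congr rfl fun j _ => ?_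
  split_ifs with hc
  · obtain ⟨-, hi, hj, hij⟩ := hc
    have hji : X + eP j + eP i ∈ Λ := by
      have : X + eP j + eP i = X + eP i + eP j := by abel
      rw [this]; exact hij
    have h1 : plaq U X y i j = plaq U' X y i j := by
      unfold plaq
      rw [h X (y, i) hX hi, h (X + eP i) (y + eT l i, j) hi hij,
        h (X + eP j) (y + eT l j, i) hj hji, h X (y, j) hX hj]
    unfold pe
    rw [h1]
  · rfl

end algebra

/-! ### measures -/

section measure

variable {N l n : ℕ} [NeZero N] [NeZero l] [MeasurableSpace (SU N)] [BorelSpace (SU N)]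
  (μ : Measure (SU N)) [IsProbabilityMeasure μ] [μ.IsMulLeftInvariant] [μ.IsMulRightInvariant]
  (Λ : Finset Pl)

instance : IsProbabilityMeasure (muL (l := l) μ Λ) := by
  unfold muL; infer_instance

lemma mp_mul_mul (a b : SU N) : MeasurePreserving (fun g => a * g * b) μ μ :=
  (measurePreserving_mul_right μ b).comp (measurePreserving_mul_left μ a)

omit [IsProbabilityMeasure μ] [μ.IsMulLeftInvariant] [μ.IsMulRightInvariant] in
lemma mp_muL [IsProbabilityMeasure μ] {f : Λ → (Tor l × Fin 4) → SU N → SU N}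
    (hf : ∀ X p, MeasurePreserving (f X p) μ μ) :
    MeasurePreserving (fun (u : Λ → Fib N l) X p => f X p (u X p)) (muL μ Λ) (muL μ Λ) := by
  unfold muL
  exact measurePreserving_pi (fun _ : Λ => Measure.pi fun _ : Tor l × Fin 4 => μ)
    (fun _ => Measure.pi fun _ => μ) (f := fun X v p => f X p (v p))
    (fun X => measurePreserving_pi (fun _ => μ) (fun _ => μ) (fun p => hf X p))

theorem mp_gtL (h : Λ → Tor l → SU N) : MeasurePreserving (gtL Λ h) (muL μ Λ) (muL μ Λ) :=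
  mp_muL μ Λ (f := fun X p g => h X p.1 * g * (exH Λ h (X.1 + eP p.2) (p.1 + eT l p.2))⁻¹)
    fun X p => mp_mul_mul μ _ _

/-- (3) right translations at every site preserve the measure -/
theorem mp_right (c : Fib N l) :
    MeasurePreserving (fun (u : Λ → Fib N l) X => u X * c) (muL μ Λ) (muL μ Λ) :=
  mp_muL μ Λ (f := fun _ p g => g * c p) fun _ p => measurePreserving_mul_right μ (c p)

/-- left translations preserve the measure -/
theorem mp_left (c : Λ → Fib N l) :
    MeasurePreserving (fun (u : Λ → Fib N l) X => c X * u X) (muL μ Λ) (muL μ Λ) :=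
  mp_muL μ Λ (f := fun X p g => c X p * g) fun X p => measurePreserving_mul_left μ (c X p)

omit μ [IsProbabilityMeasure μ] [μ.IsMulLeftInvariant] [μ.IsMulRightInvariant] in
theorem meas_ext : Measurable (ext Λ : (Λ → Fib N l) → Pl → Fib N l) := by
  refine measurable_pi_lambda _ fun X => ?_
  unfold ext
  by_cases h : X ∈ Λ
  · simp only [dif_pos h]
    exact measurable_pi_apply _
  · simp only [dif_neg h]
    exact measurable_const

omit μ [IsProbabilityMeasure μ] [μ.IsMulLeftInvariant] [μ.IsMulRightInvariant] in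
theorem meas_exH (X : Pl) : Measurable fun h : Λ → Tor l → SU N => exH Λ h X := by
  unfold exH
  by_cases hX : X ∈ Λ
  · simp only [dif_pos hX]
    exact measurable_pi_apply _
  · simp only [dif_neg hX]
    exact measurable_const

omit μ [IsProbabilityMeasure μ] [μ.IsMulLeftInvariant] [μ.IsMulRightInvariant] in
theorem meas_gtL : Measurable (Function.uncurry (gtL Λ : (Λ → Tor l → SU N) →
    (Λ → Fib N l) → Λ → Fib N l)) := by
  refine measurable_pi_lambda _ fun X => measurable_pi_lambda _ fun p => ?_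
  unfold gtL Function.uncurry
  have h1 : Measurable fun q : (Λ → Tor l → SU N) × (Λ → Fib N l) => q.1 X p.1 :=
    (measurable_pi_apply p.1).comp ((measurable_pi_apply X).comp measurable_fst)
  have h2 : Measurable fun q : (Λ → Tor l → SU N) × (Λ → Fib N l) => q.2 X p :=
    (measurable_pi_apply p).comp ((measurable_pi_apply X).comp measurable_snd)
  have h3 : Measurable fun q : (Λ → Tor l → SU N) × (Λ → Fib N l) =>
      exH Λ q.1 (X.1 + eP p.2) (p.1 + eT l p.2) :=
    (measurable_pi_apply _).comp ((meas_exH Λ _).comp measurable_fst)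
  exact (h1.mul h2).mul h3.inv

omit μ [NeZero l] [IsProbabilityMeasure μ] [μ.IsMulLeftInvariant] [μ.IsMulRightInvariant] in
theorem meas_phi : Measurable (phi : Fib N l → Tor l × Fin 2 → SU N) :=
  measurable_pi_lambda _ fun _ => measurable_pi_apply _

omit μ [NeZero l] [IsProbabilityMeasure μ] [μ.IsMulLeftInvariant] [μ.IsMulRightInvariant] in
theorem meas_psi (k : Fin 2) : Measurable (fun u : Fib N l => psi u k) :=
  measurable_pi_lambda _ fun _ => measurable_pi_apply _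

omit μ [IsProbabilityMeasure μ] [μ.IsMulLeftInvariant] [μ.IsMulRightInvariant] in
theorem meas_action (z : ℂ) : Measurable (action z Λ : (Pl → Fib N l) → ℝ) := by
  unfold action
  refine Finset.measurable_sum _ fun X _ => Finset.measurable_sum _ fun y _ =>
    Finset.measurable_sum _ fun i _ => Finset.measurable_sum _ fun j _ => ?_
  split_ifs
  · unfold pe
    have h0 : ∀ (X : Pl) (p : Tor l × Fin 4), Measurable fun U : Pl → Fib N l => U X p :=
      fun X p => (measurable_pi_apply p).comp (measurable_pi_apply X)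
    have h1 : Measurable fun U : Pl → Fib N l => plaq U X y i j := by
      unfold plaq
      exact (((h0 _ _).mul (h0 _ _)).mul (h0 _ _).inv).mul (h0 _ _).inv
    have h2 : Continuous fun g : SU N => (N : ℝ) - (star (tw z y i j) * trace
        ((g : Matrix.unitaryGroup (Fin N) ℂ) : Matrix (Fin N) (Fin N) ℂ)).re := by
      have h3 : Continuous fun g : SU N => ((g : Matrix.unitaryGroup (Fin N) ℂ) :
          Matrix (Fin N) (Fin N) ℂ) := continuous_subtype_val.comp continuous_subtype_val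
      exact continuous_const.sub (Complex.continuous_re.comp
        (continuous_const.mul h3.matrix_trace))
    exact h2.measurable.comp h1
  · exact measurable_const

/-- (1) **Gauge fixing**, general form. -/
theorem gauge_fix_gen {χ : (Tor l × Fin 2 → SU N) → ℝ≥0∞} (hχ : Measurable χ) {C : ℝ≥0∞}
    (hC : ∀ φ, ∫⁻ k : Tor l → SU N, χ (act sE tE k φ) ∂(Measure.pi fun _ => μ) = C)
    {f : (Λ → Fib N l) → ℝ≥0∞} (hf : Measurable f) (hi : ∀ h u, f (gtL Λ h u) = f u) :
    ∫⁻ u, f u * ∏ X : Λ, χ (phi (u X)) ∂(muL μ Λ) = C ^ Λ.card * ∫⁻ u, f u ∂(muL μ Λ) := by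
  refine avg1 (muL μ Λ) (Measure.pi fun _ : Λ => Measure.pi fun _ : Tor l => μ) (gtL Λ)
    (meas_gtL Λ) (mp_gtL μ Λ) hf ?_ hi fun u => ?_
  · exact Finset.measurable_prod _ fun X _ => hχ.comp (meas_phi.comp (measurable_pi_apply X))
  · simp only [phi_gtL]
    rw [lintegral_pi_prod (fun _ : Λ => Measure.pi fun _ : Tor l => μ)
      (fun X k => χ (act sE tE k (phi (u X))))]
    · simp only [hC, Finset.prod_const, Finset.card_univ, Fintype.card_coe]
    · intro X
      refine hχ.comp ?_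
      have : Continuous fun k : Tor l → SU N => act sE tE k (phi (u X)) :=
        act_cont sE tE continuous_id continuous_const
      exact this.measurable

/-! ### dummy links -/

/-- translations of the links `(X, k)` with `Dm X k` -/
def trD (Dm : Λ → Fin 2 → Prop) [∀ X k, Decidable (Dm X k)] (h : Λ → Fin 2 → Tor l → SU N)
    (u : Λ → Fib N l) : Λ → Fib N l := fun X p =>
  (Fin.addCases (m := 2) (n := 2) (motive := fun _ => SU N)
    (fun k => if Dm X k then h X k p.1 else 1) (fun _ => 1) p.2) * u X p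

omit [NeZero N] [MeasurableSpace (SU N)] [BorelSpace (SU N)] μ [IsProbabilityMeasure μ] [μ.IsMulLeftInvariant] [μ.IsMulRightInvariant] [NeZero l] in
lemma phi_trD (Dm : Λ → Fin 2 → Prop) [∀ X k, Decidable (Dm X k)] (h : Λ → Fin 2 → Tor l → SU N)
    (u : Λ → Fib N l) (X : Λ) : phi (trD Λ Dm h u X) = phi (u X) := by
  funext e
  show (Fin.addCases (m := 2) (n := 2) (motive := fun _ => SU N)
    (fun k => if Dm X k then h X k e.1 else 1) (fun _ => 1) (Fin.natAdd 2 e.2)) *
      u X (e.1, Fin.natAdd 2 e.2) = _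
  rw [Fin.addCases_right, one_mul]
  rfl

omit [NeZero N] [MeasurableSpace (SU N)] [BorelSpace (SU N)] μ [IsProbabilityMeasure μ] [μ.IsMulLeftInvariant] [μ.IsMulRightInvariant] [NeZero l] in
lemma psi_trD (Dm : Λ → Fin 2 → Prop) [∀ X k, Decidable (Dm X k)] (h : Λ → Fin 2 → Tor l → SU N)
    (u : Λ → Fib N l) (X : Λ) (k : Fin 2) :
    psi (trD Λ Dm h u X) k = (if Dm X k then h X k else 1) * psi (u X) k := by
  funext y
  show (Fin.addCases (m := 2) (n := 2) (motive := fun _ => SU N)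
    (fun k => if Dm X k then h X k y else 1) (fun _ => 1) (Fin.castAdd 2 k)) *
      u X (y, Fin.castAdd 2 k) = _
  rw [Fin.addCases_left]
  by_cases hd : Dm X k
  · rw [if_pos hd, if_pos hd]
    rfl
  · rw [if_neg hd, if_neg hd]
    rfl

theorem mp_trD (Dm : Λ → Fin 2 → Prop) [∀ X k, Decidable (Dm X k)]
    (h : Λ → Fin 2 → Tor l → SU N) :
    MeasurePreserving (trD Λ Dm h) (muL μ Λ) (muL μ Λ) :=
  mp_left μ Λ fun X p => (Fin.addCases (m := 2) (n := 2) (motive := fun _ => SU N)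
    (fun k => if Dm X k then h X k p.1 else 1) (fun _ => 1) p.2)

omit [NeZero l] μ [IsProbabilityMeasure μ] [μ.IsMulLeftInvariant] [μ.IsMulRightInvariant] in
theorem meas_trD [NeZero l] (Dm : Λ → Fin 2 → Prop) [∀ X k, Decidable (Dm X k)] :
    Measurable (Function.uncurry (trD Λ Dm : (Λ → Fin 2 → Tor l → SU N) →
      (Λ → Fib N l) → Λ → Fib N l)) := by
  refine measurable_pi_lambda _ fun X => measurable_pi_lambda _ fun p => ?_
  obtain ⟨y, i⟩ := p
  unfold trD Function.uncurry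
  have h2 : Measurable fun q : (Λ → Fin 2 → Tor l → SU N) × (Λ → Fib N l) => q.2 X (y, i) :=
    (measurable_pi_apply _).comp ((measurable_pi_apply X).comp measurable_snd)
  refine Measurable.mul ?_ h2
  refine Fin.addCases (m := 2) (n := 2) (motive := fun i => Measurable
    fun q : (Λ → Fin 2 → Tor l → SU N) × (Λ → Fib N l) =>
      (Fin.addCases (m := 2) (n := 2) (motive := fun _ => SU N)
        (fun k => if Dm X k then q.1 X k y else 1) (fun _ => 1) i)) (fun k => ?_) (fun k => ?_) i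
  · simp only [Fin.addCases_left]
    split_ifs
    · exact (measurable_pi_apply y).comp ((measurable_pi_apply k).comp
        ((measurable_pi_apply X).comp measurable_fst))
    · exact measurable_const
  · simp only [Fin.addCases_right]
    exact measurable_const

/-- (2) **Dummy links**: integration of a weight of the links on which nothing else depends. -/
theorem dummy_links (Dm : Λ → Fin 2 → Prop) [∀ X k, Decidable (Dm X k)]
    {w : (Tor l → SU N) → ℝ≥0∞} (hw : Measurable w) {F : (Λ → Fib N l) → ℝ≥0∞}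
    (hF : Measurable F)
    (hi : ∀ u u' : Λ → Fib N l, (∀ X, phi (u X) = phi (u' X)) →
      (∀ X k, ¬ Dm X k → psi (u X) k = psi (u' X) k) → F u = F u') :
    ∫⁻ u, F u * ∏ X : Λ, ∏ k : Fin 2, (if Dm X k then w (psi (u X) k) else 1) ∂(muL μ Λ) =
      (∏ X : Λ, ∏ k : Fin 2, if Dm X k then ∫⁻ k, w k ∂(Measure.pi fun _ => μ) else 1) *
        ∫⁻ u, F u ∂(muL μ Λ) := by
  refine avg1 (muL μ Λ) (Measure.pi fun _ : Λ => Measure.pi fun _ : Fin 2 =>
    Measure.pi fun _ : Tor l => μ) (trD Λ Dm)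
    (meas_trD Λ Dm) (mp_trD μ Λ Dm) hF ?_ (fun h u => ?_) fun u => ?_
  · refine Finset.measurable_prod _ fun X _ => Finset.measurable_prod _ fun k _ => ?_
    split_ifs
    · exact hw.comp ((meas_psi k).comp (measurable_pi_apply X))
    · exact measurable_const
  · refine hi _ _ (fun X => phi_trD Λ Dm h u X) fun X k hk => ?_
    rw [psi_trD, if_neg hk, one_mul]
  · have h1 : ∀ h : Λ → Fin 2 → Tor l → SU N, (∏ X : Λ, ∏ k : Fin 2,
        (if Dm X k then w (psi (trD Λ Dm h u X) k) else 1)) =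
        ∏ X : Λ, ∏ k : Fin 2, (if Dm X k then w (h X k * psi (u X) k) else 1) := by
      intro h
      refine Finset.prod_congr rfl fun X _ => Finset.prod_congr rfl fun k _ => ?_
      by_cases hd : Dm X k
      · rw [if_pos hd, if_pos hd, psi_trD, if_pos hd]
      · rw [if_neg hd, if_neg hd]
    simp only [h1]
    have h2 : ∀ (X : Λ) (k : Fin 2), Measurable fun g : Tor l → SU N =>
        if Dm X k then w (g * psi (u X) k) else 1 := by
      intro X k
      split_ifs
      · exact hw.comp (measurable_mul_const _)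
      · exact measurable_const
    rw [lintegral_pi_prod (fun _ : Λ => Measure.pi fun _ : Fin 2 => Measure.pi fun _ : Tor l => μ)
      (fun X v => ∏ k : Fin 2, if Dm X k then w (v k * psi (u X) k) else 1)
      (fun X => Finset.measurable_prod _ fun k _ => (h2 X k).comp (measurable_pi_apply k))]
    refine Finset.prod_congr rfl fun X _ => ?_
    rw [lintegral_pi_prod (fun _ : Fin 2 => Measure.pi fun _ : Tor l => μ)
      (fun k v => if Dm X k then w (v * psi (u X) k) else 1) (h2 X)]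
    refine Finset.prod_congr rfl fun k _ => ?_
    by_cases hd : Dm X k
    · simp only [if_pos hd]
      exact lintegral_mul_right_eq_self (μ := Measure.pi fun _ : Tor l => μ) w _
    · simp only [if_neg hd]
      simp


/-! ### the ensemble of links and centre variables -/

variable (𝔇 : Dat N l n)

omit μ [BorelSpace (SU N)] [IsProbabilityMeasure μ] [μ.IsMulLeftInvariant] [μ.IsMulRightInvariant] in
lemma card_ne_zero : ((Nat.card 𝔇.Zc : ℕ) : ℝ≥0∞) ≠ 0 := by
  have : Nat.card 𝔇.Zc ≠ 0 := Nat.card_pos.ne'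
  exact_mod_cast this

omit μ [BorelSpace (SU N)] [IsProbabilityMeasure μ] [μ.IsMulLeftInvariant] [μ.IsMulRightInvariant] in
lemma card_ne_top : ((Nat.card 𝔇.Zc : ℕ) : ℝ≥0∞) ≠ ⊤ := ENNReal.natCast_ne_top _

omit μ [IsProbabilityMeasure μ] [μ.IsMulLeftInvariant] [μ.IsMulRightInvariant] in
lemma lintegral_uni [Fintype 𝔇.Zc] (v : 𝔇.Zc → ℝ≥0∞) :
    ∫⁻ c, v c ∂𝔇.uni = ((Nat.card 𝔇.Zc : ℕ) : ℝ≥0∞)⁻¹ * ∑ c, v c := by
  unfold Dat.uni
  rw [lintegral_smul_measure, lintegral_count, tsum_fintype, smul_eq_mul]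

omit μ [IsProbabilityMeasure μ] [μ.IsMulLeftInvariant] [μ.IsMulRightInvariant] in
instance uni_prob : IsProbabilityMeasure 𝔇.uni := by
  have := Fintype.ofFinite 𝔇.Zc
  refine ⟨?_⟩
  have h := lintegral_uni 𝔇 (fun _ => 1)
  rw [lintegral_one] at h
  rw [h, Finset.sum_const, Finset.card_univ, nsmul_eq_mul, mul_one, ← Nat.card_eq_fintype_card]
  exact ENNReal.inv_mul_cancel (card_ne_zero 𝔇) (card_ne_top 𝔇)

omit μ [IsProbabilityMeasure μ] [μ.IsMulLeftInvariant] [μ.IsMulRightInvariant] in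
lemma uni_singleton (c : 𝔇.Zc) : 𝔇.uni {c} = ((Nat.card 𝔇.Zc : ℕ) : ℝ≥0∞)⁻¹ := by
  unfold Dat.uni
  rw [Measure.smul_apply, Measure.count_singleton, smul_eq_mul, mul_one]

omit μ [IsProbabilityMeasure μ] [μ.IsMulLeftInvariant] [μ.IsMulRightInvariant] in
lemma mp_uni (ζ : 𝔇.Zc) : MeasurePreserving (fun c => ζ * c) 𝔇.uni 𝔇.uni := by
  have := Fintype.ofFinite 𝔇.Zc
  refine ⟨Measurable.of_discrete, ?_⟩
  refine Measure.ext_of_singleton fun c => ?_
  rw [Measure.map_apply Measurable.of_discrete (measurableSet_singleton c)]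
  have h : (fun c => ζ * c) ⁻¹' {c} = {ζ⁻¹ * c} := by
    ext x
    simp only [Set.mem_preimage, Set.mem_singleton_iff]
    constructor
    · rintro rfl; simp
    · rintro rfl; simp
  rw [h, uni_singleton, uni_singleton]

omit μ [IsProbabilityMeasure μ] [μ.IsMulLeftInvariant] [μ.IsMulRightInvariant] in
/-- integration over the centre variables -/
lemma lintegral_pi_uni [Fintype 𝔇.Zc] (G : (Λ → 𝔇.Zc) → ℝ≥0∞) :
    ∫⁻ c, G c ∂(Measure.pi fun _ : Λ => 𝔇.uni) =
      (((Nat.card 𝔇.Zc : ℕ) : ℝ≥0∞)⁻¹) ^ Λ.card * ∑ c, G c := by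
  classical
  rw [lintegral_fintype, Finset.mul_sum]
  refine Finset.sum_congr rfl fun c _ => ?_
  rw [Measure.pi_singleton]
  simp only [uni_singleton, Finset.prod_const, Finset.card_univ, Fintype.card_coe]
  rw [mul_comm]

instance nu_prob : IsProbabilityMeasure (𝔇.nu μ) := by
  unfold Dat.nu; infer_instance

/-- (4) **splitting** of the a priori measure -/
theorem split {F : (Λ → 𝔇.KK) → ℝ≥0∞} (hF : Measurable F) :
    ∫⁻ g, F g ∂(Measure.pi fun _ => 𝔇.nu μ) =
      ∫⁻ u, ∫⁻ c, F (fun X => (u X, c X)) ∂(Measure.pi fun _ => 𝔇.uni) ∂(muL μ Λ) := by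
  have h := (measurePreserving_arrowProdEquivProdArrow (Fib N l) 𝔇.Zc Λ
    (fun _ => Measure.pi fun _ => μ) (fun _ => 𝔇.uni)).symm
  have h2 : ∫⁻ g, F g ∂(Measure.pi fun _ => 𝔇.nu μ) = ∫⁻ q : (Λ → Fib N l) × (Λ → 𝔇.Zc),
      F (fun X => (q.1 X, q.2 X)) ∂((muL μ Λ).prod (Measure.pi fun _ => 𝔇.uni)) :=
    (h.lintegral_comp hF).symm
  rw [h2]
  refine lintegral_prod _ ?_
  exact (hF.comp (MeasurableEquiv.arrowProdEquivProdArrow (Fib N l) 𝔇.Zc Λ).symm.measurable).aemeasurable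

omit μ [IsProbabilityMeasure μ] [μ.IsMulLeftInvariant] [μ.IsMulRightInvariant] in
lemma meas_pair (c : Λ → 𝔇.Zc) : Measurable fun (u : Λ → Fib N l) => (fun X => (u X, c X) : Λ → 𝔇.KK) :=
  measurable_pi_lambda _ fun X => (measurable_pi_apply X).prodMk measurable_const

/-- (4) **splitting** of the a priori measure, with sums -/
theorem split_sum [Fintype 𝔇.Zc] {F : (Λ → 𝔇.KK) → ℝ≥0∞} (hF : Measurable F) :
    ∫⁻ g, F g ∂(Measure.pi fun _ => 𝔇.nu μ) = (((Nat.card 𝔇.Zc : ℕ) : ℝ≥0∞)⁻¹) ^ Λ.card *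
      ∑ c : Λ → 𝔇.Zc, ∫⁻ u, F (fun X => (u X, c X)) ∂(muL μ Λ) := by
  classical
  rw [split μ Λ 𝔇 hF]
  simp only [lintegral_pi_uni]
  have hm : ∀ c : Λ → 𝔇.Zc, Measurable fun (u : Λ → Fib N l) => F (fun X => (u X, c X)) :=
    fun c => hF.comp (meas_pair Λ 𝔇 c)
  rw [lintegral_const_mul _ (Finset.measurable_sum _ fun c _ => hm c),
    lintegral_finsetSum _ fun c _ => hm c]

/-- the weight of the dummy centre variables is harmless -/
theorem dummy_centre (Dm : Λ → Prop) [DecidablePred Dm] (v : 𝔇.Zc → ℝ≥0∞)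
    {F : (Λ → 𝔇.KK) → ℝ≥0∞} (hF : Measurable F)
    (hi : ∀ g g' : Λ → 𝔇.KK, (∀ X, (g X).1 = (g' X).1) → (∀ X, ¬ Dm X → (g X).2 = (g' X).2) →
      F g = F g') :
    ∫⁻ g, F g * ∏ X : Λ, (if Dm X then v (g X).2 else 1) ∂(Measure.pi fun _ => 𝔇.nu μ) =
      (∏ X : Λ, if Dm X then ∫⁻ c, v c ∂𝔇.uni else 1) *
        ∫⁻ g, F g ∂(Measure.pi fun _ => 𝔇.nu μ) := by
  have hv : Measurable v := Measurable.of_discrete
  refine avg1 (Measure.pi fun _ => 𝔇.nu μ) (Measure.pi fun _ : Λ => 𝔇.uni)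
    (fun h g X => ((g X).1, if Dm X then h X * (g X).2 else (g X).2)) ?_ (fun h => ?_) hF ?_
    (fun h g => ?_) fun g => ?_
  · refine measurable_pi_lambda _ fun X => ?_
    unfold Function.uncurry
    have h1 : Measurable fun q : (Λ → 𝔇.Zc) × (Λ → 𝔇.KK) => (q.2 X).1 :=
      measurable_fst.comp ((measurable_pi_apply X).comp measurable_snd)
    have h2 : Measurable fun q : (Λ → 𝔇.Zc) × (Λ → 𝔇.KK) => (q.2 X).2 :=
      measurable_snd.comp ((measurable_pi_apply X).comp measurable_snd)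
    have h3 : Measurable fun q : (Λ → 𝔇.Zc) × (Λ → 𝔇.KK) => q.1 X :=
      (measurable_pi_apply X).comp measurable_fst
    refine h1.prodMk ?_
    have h5 : MeasurableMul₂ 𝔇.Zc := ⟨Measurable.of_discrete⟩
    split_ifs
    · exact h3.mul h2
    · exact h2
  · refine measurePreserving_pi (fun _ : Λ => 𝔇.nu μ) (fun _ => 𝔇.nu μ)
      (f := fun X k => (k.1, if Dm X then h X * k.2 else k.2)) fun X => ?_
    by_cases hd : Dm X
    · simp only [if_pos hd]
      exact (MeasurePreserving.id _).prod (mp_uni 𝔇 (h X))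
    · simp only [if_neg hd]
      exact MeasurePreserving.id _
  · refine Finset.measurable_prod _ fun X _ => ?_
    split_ifs
    · exact hv.comp (measurable_snd.comp (measurable_pi_apply X))
    · exact measurable_const
  · refine hi _ _ (fun X => rfl) fun X hX => ?_
    simp only [if_neg hX]
  · have h1 : ∀ h : Λ → 𝔇.Zc, (∏ X : Λ, (if Dm X then
        v (if Dm X then h X * (g X).2 else (g X).2) else 1)) =
        ∏ X : Λ, (if Dm X then v (h X * (g X).2) else 1) := by
      intro h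
      refine Finset.prod_congr rfl fun X _ => ?_
      by_cases hd : Dm X
      · simp only [if_pos hd]
      · simp only [if_neg hd]
    simp only [h1]
    rw [lintegral_pi_prod (fun _ : Λ => 𝔇.uni) (fun X c => if Dm X then v (c * (g X).2) else 1)
      (fun X => Measurable.of_discrete)]
    refine Finset.prod_congr rfl fun X _ => ?_
    by_cases hd : Dm X
    · simp only [if_pos hd]
      have := Fintype.ofFinite 𝔇.Zc
      rw [lintegral_uni, lintegral_uni]
      congr 1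
      exact Fintype.sum_equiv (Equiv.mulRight (g X).2) _ _ fun c => rfl
    · simp only [if_neg hd]
      simp

/-! ### the gauge fixing function -/

lemma exp_bb {β : ℝ} (hβ : 0 < β) : Real.exp (-(β * 𝔇.bb μ β)) = cN μ 𝔇.Zc β := by
  have h : -(β * 𝔇.bb μ β) = Real.log (cN μ 𝔇.Zc β) := by
    unfold Dat.bb
    field_simp
  rw [h, Real.exp_log (cN_pos 𝔇.D μ hβ.le)]

omit μ [IsProbabilityMeasure μ] [μ.IsMulLeftInvariant] [μ.IsMulRightInvariant] in
lemma meas_ge (δ b : ℝ) : Measurable (ge 𝔇.B 𝔇.hG sE tE 𝔇.φ₀ 𝔇.P δ b) :=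
  ge_measurable 𝔇.hG 𝔇.P δ b

lemma ge_nonneg' {δ b : ℝ} (hb : 0 ≤ b) (φ : Tor l × Fin 2 → SU N) :
    0 ≤ ge 𝔇.B 𝔇.hG sE tE 𝔇.φ₀ 𝔇.P δ b φ := by
  unfold ge
  split_ifs
  · exact gd_nonneg _ _ _ _ _ _ _ _
  · exact hb

lemma bb_nonneg {β : ℝ} (hβ : 0 < β) : 0 ≤ 𝔇.bb μ β := by
  unfold Dat.bb
  have h1 := Real.log_nonpos (cN_pos 𝔇.D μ hβ.le).le (cN_le 𝔇.D μ hβ.le)
  exact div_nonneg (by linarith) hβ.le

/-- the average of the gauge fixing weight over the gauge group -/
theorem chi_lint {δ β : ℝ} (hδ : 0 < δ) (hδ₀ : δ ≤ 𝔇.δ₀) (hβ : 0 < β)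
    (φ : Tor l × Fin 2 → SU N) :
    ∫⁻ k : Tor l → SU N, ENNReal.ofReal (Real.exp (-(β *
      ge 𝔇.B 𝔇.hG sE tE 𝔇.φ₀ 𝔇.P δ (𝔇.bb μ β) (act sE tE k φ)))) ∂(Measure.pi fun _ => μ) =
      ENNReal.ofReal (cN μ 𝔇.Zc β) := by
  rw [← chi_norm 𝔇.D μ hδ hδ₀ hβ.le (exp_bb μ 𝔇 hβ) φ]
  rw [ofReal_integral_eq_lintegral_ofReal]
  · have hm : Measurable fun k : Tor l → SU N => Real.exp (-(β *
        ge 𝔇.B 𝔇.hG sE tE 𝔇.φ₀ 𝔇.P δ (𝔇.bb μ β) (act sE tE k φ))) := by
      have : Continuous fun k : Tor l → SU N => act sE tE k φ :=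
        act_cont sE tE continuous_id continuous_const
      exact (((meas_ge 𝔇 δ (𝔇.bb μ β)).comp this.measurable).const_mul β).neg.exp
    refine Integrable.of_bound (C := 1) hm.aestronglyMeasurable (Eventually.of_forall fun k => ?_)
    rw [Real.norm_eq_abs, abs_of_pos (Real.exp_pos _)]
    refine Real.exp_le_one_iff.2 ?_
    have := mul_nonneg hβ.le (ge_nonneg' (δ := δ) 𝔇 (bb_nonneg μ 𝔇 hβ) (act sE tE k φ))
    linarith
  · exact Eventually.of_forall fun k => (Real.exp_pos _).le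

/-- (1) **Gauge fixing** for invariant functions in the region -/
theorem gauge_fix {δ β : ℝ} (hδ : 0 < δ) (hδ₀ : δ ≤ 𝔇.δ₀) (hβ : 0 < β)
    {f : (Λ → Fib N l) → ℝ≥0∞} (hf : Measurable f) (hi : ∀ h u, f (gtL Λ h u) = f u) :
    ∫⁻ u, f u * ∏ X : Λ, ENNReal.ofReal (Real.exp (-(β *
      ge 𝔇.B 𝔇.hG sE tE 𝔇.φ₀ 𝔇.P δ (𝔇.bb μ β) (phi (u X))))) ∂(muL μ Λ) =
      ENNReal.ofReal (cN μ 𝔇.Zc β) ^ Λ.card * ∫⁻ u, f u ∂(muL μ Λ) :=
  gauge_fix_gen μ Λ (χ := fun φ => ENNReal.ofReal (Real.exp (-(β *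
      ge 𝔇.B 𝔇.hG sE tE 𝔇.φ₀ 𝔇.P δ (𝔇.bb μ β) φ))))
    (((meas_ge 𝔇 δ (𝔇.bb μ β)).const_mul β).neg.exp.ennreal_ofReal)
    (chi_lint μ 𝔇 hδ hδ₀ hβ) hf hi

/-- (1) **Gauge fixing** for gauge invariant observables, with the action -/
theorem gauge_fix_action {δ β : ℝ} (hδ : 0 < δ) (hδ₀ : δ ≤ 𝔇.δ₀) (hβ : 0 < β) (z : ℂ)
    {f : (Pl → Fib N l) → ℝ≥0∞} (hf : Measurable f) (hg : GaugeInv f) (hD : DepOn f Λ) :
    ∫⁻ u, f (ext Λ u) * ENNReal.ofReal (Real.exp (-(β * (action z Λ (ext Λ u) +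
      ∑ X : Λ, ge 𝔇.B 𝔇.hG sE tE 𝔇.φ₀ 𝔇.P δ (𝔇.bb μ β) (phi (u X)))))) ∂(muL μ Λ) =
      ENNReal.ofReal (cN μ 𝔇.Zc β) ^ Λ.card * ∫⁻ u, f (ext Λ u) *
        ENNReal.ofReal (Real.exp (-(β * action z Λ (ext Λ u)))) ∂(muL μ Λ) := by
  have h1 : Measurable fun u : Λ → Fib N l => f (ext Λ u) *
      ENNReal.ofReal (Real.exp (-(β * action z Λ (ext Λ u)))) :=
    (hf.comp (meas_ext Λ)).mul
      ((((meas_action Λ z).comp (meas_ext Λ)).const_mul β).neg.exp.ennreal_ofReal)
  rw [← gauge_fix μ Λ 𝔇 hδ hδ₀ hβ h1]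
  · refine lintegral_congr fun u => ?_
    rw [mul_assoc, ← ENNReal.ofReal_prod_of_nonneg (fun X _ => (Real.exp_pos _).le),
      ← ENNReal.ofReal_mul (Real.exp_pos _).le, ← Real.exp_sum, ← Real.exp_add]
    congr 3
    rw [mul_add, Finset.mul_sum, neg_add, Finset.sum_neg_distrib]
  · intro h u
    rw [inv_gtL Λ hg hD, inv_gtL Λ (action_gaugeInv Λ z) (action_depOn Λ z)]


end measure

end

end Pool.Agent.N984.TW.RA
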