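import Mathlib
import Pool.Agent.N726.TW.RA

/-!
# The interface of the gauge fixing part
-/

open MeasureTheory Matrix Filter
open scoped Matrix.Norms.Frobenius Topology ENNReal
open Pool.Agent.H906R3.YM Pool.Agent.W793.YM Pool.Agent.TH618.YM

namespace Pool.Agent.N984.TW

set_option linter.unusedSectionVars false

noncomputable section

variable {N l n : ℕ} [NeZero N] [NeZero l]
variable (𝔇 : Dat N l n) [MeasurableSpace (SU N)] [BorelSpace (SU N)] (μ : Measure (SU N))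
  [IsProbabilityMeasure μ] [μ.IsMulLeftInvariant] [μ.IsMulRightInvariant]

/-- (R-A 1) gauge fixing -/
theorem RA_gauge {δ β : ℝ} (hδ : 0 < δ) (hδ₀ : δ ≤ 𝔇.δ₀) (hβ : 0 < β) (Λ : Finset Pl)
    {F : (Pl → Fib N l) → ℝ≥0∞} (hF : Measurable F) (hi : GaugeInv F) (hD : DepOn F Λ) :
    ∫⁻ u, F (ext Λ u) * ∏ X : Λ, ENNReal.ofReal
        (Real.exp (-(β * ge 𝔇.B 𝔇.hG sE tE 𝔇.φ₀ 𝔇.P δ (𝔇.bb μ β) (phi (u X))))) ∂(muL μ Λ) =
      ENNReal.ofReal (cN μ 𝔇.Zc β) ^ Λ.card * ∫⁻ u, F (ext Λ u) ∂(muL μ Λ) :=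
  RA.gauge_fix μ Λ 𝔇 hδ hδ₀ hβ (f := fun u => F (ext Λ u)) (hF.comp (RA.meas_ext Λ))
    (RA.inv_gtL Λ hi hD)

/-- the links in the plane which leave the region are dummy variables -/
def NoDummy {α : Type*} (Λ : Finset Pl) (F : (Λ → Fib N l) → α) : Prop :=
  ∀ u u' : Λ → Fib N l, (∀ X : Λ, phi (u X) = phi (u' X)) →
    (∀ (X : Λ) (k : Fin 2), (X : Pl) + uP k ∈ Λ → psi (u X) k = psi (u' X) k) → F u = F u'

omit [NeZero N] in
lemma meas_nr : Measurable (nr : (Tor l → SU N) → ℝ) := by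
  have : Continuous (nr : (Tor l → SU N) → ℝ) := by
    unfold nr
    refine continuous_finsetSum _ fun y _ => ?_
    have h3 : Continuous fun k : Tor l → SU N => mt (k y) :=
      (continuous_subtype_val.comp continuous_subtype_val).comp (continuous_apply y)
    exact ((h3.sub continuous_const).norm).pow 2
  exact this.measurable

open scoped Classical in
/-- (R-A 2) the dummy links -/
theorem RA_dummy {β : ℝ} (Λ : Finset Pl) {F : (Λ → Fib N l) → ℝ≥0∞} (hF : Measurable F)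
    (hi : NoDummy Λ F) :
    ∫⁻ u, F u * ∏ X : Λ, ∏ k : Fin 2, (if (X : Pl) + uP k ∈ Λ then 1 else
        ENNReal.ofReal (Real.exp (-(β * nr (psi (u X) k))))) ∂(muL μ Λ) =
      (∏ X : Λ, ∏ k : Fin 2, (if (X : Pl) + uP k ∈ Λ then (1 : ℝ≥0∞) else
        ∫⁻ k : Tor l → SU N, ENNReal.ofReal (Real.exp (-(β * nr k))) ∂(Measure.pi fun _ => μ))) *
        ∫⁻ u, F u ∂(muL μ Λ) := by
  have hw : Measurable fun k : Tor l → SU N => ENNReal.ofReal (Real.exp (-(β * nr k))) :=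
    (meas_nr.const_mul β).neg.exp.ennreal_ofReal
  have h := RA.dummy_links μ Λ (fun (X : Λ) k => ¬ (X : Pl) + uP k ∈ Λ) hw hF
    (fun u u' h1 h2 => hi u u' h1 fun X k hk => h2 X k (not_not.2 hk))
  simp only [ite_not] at h
  exact h

/-- (R-A 3) right translation -/
theorem RA_trans (Λ : Finset Pl) (u0 : Fib N l) :
    MeasurePreserving (fun (u : Λ → Fib N l) (X : Λ) => u X * u0) (muL μ Λ) (muL μ Λ) :=
  RA.mp_right μ Λ u0

/-- (R-A 4) splitting -/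
theorem RA_split (Λ : Finset Pl) {F : (Λ → Fib N l) → (Λ → 𝔇.Zc) → ℝ≥0∞}
    (hF : ∀ c, Measurable fun u => F u c) :
    ∫⁻ g, F (fun X => (g X).1) (fun X => (g X).2) ∂(Measure.pi fun _ : Λ => 𝔇.nu μ) =
      (((Nat.card 𝔇.Zc : ℝ≥0∞)⁻¹) ^ Λ.card) * ∑ᶠ c : Λ → 𝔇.Zc, ∫⁻ u, F u c ∂(muL μ Λ) := by
  have := Fintype.ofFinite 𝔇.Zc
  have hm : Measurable fun g : Λ → 𝔇.KK => F (fun X => (g X).1) (fun X => (g X).2) := by
    have h1 : Measurable fun q : (Λ → Fib N l) × (Λ → 𝔇.Zc) => F q.1 q.2 :=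
      measurable_from_prod_countable_left hF
    have h2 : Measurable fun g : Λ → 𝔇.KK =>
        ((fun X => (g X).1, fun X => (g X).2) : (Λ → Fib N l) × (Λ → 𝔇.Zc)) :=
      (MeasurableEquiv.arrowProdEquivProdArrow (Fib N l) 𝔇.Zc Λ).measurable
    exact h1.comp h2
  have h := RA.split_sum μ Λ 𝔇 hm
  rw [h, finsum_eq_sum_of_fintype]

end

end Pool.Agent.N984.TW
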