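import Mathlib
import Pool.Agent.N726.TW.RA2
import Pool.Agent.N984.TW.Spin
import Pool.Agent.N991.MK.Vol

/-!
# The a priori measure of the spins: invariance, volumes of small balls
-/

open MeasureTheory Matrix Filter
open scoped Matrix.Norms.Frobenius Topology ENNReal
open Pool.Agent.H906R3.YM Pool.Agent.W793.YM Pool.Agent.TH618.YM

namespace Pool.Agent.N984.TW

set_option linter.unusedSectionVars false
set_option linter.unusedVariables false

noncomputable section

variable {N l n : ℕ} [NeZero N] [NeZero l]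
variable (𝔇 : Dat N l n) [MeasurableSpace (SU N)] [BorelSpace (SU N)] (μ : Measure (SU N))
  [IsProbabilityMeasure μ] [μ.IsMulLeftInvariant] [μ.IsMulRightInvariant]

/-- (1) -/
theorem nu_probability : IsProbabilityMeasure (𝔇.nu μ) := RA.nu_prob μ 𝔇

instance mul_Zc : MeasurableMul₂ 𝔇.Zc := ⟨measurable_of_finite _⟩

instance mul_Fib : MeasurableMul₂ (Fib N l) :=
  ⟨measurable_pi_lambda _ fun p => ((measurable_pi_apply p).comp measurable_fst).mul
    ((measurable_pi_apply p).comp measurable_snd)⟩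

/-- (3) -/
instance mul_KK : MeasurableMul₂ 𝔇.KK :=
  ⟨((measurable_fst.comp measurable_fst).mul (measurable_fst.comp measurable_snd)).prodMk
    ((measurable_snd.comp measurable_fst).mul (measurable_snd.comp measurable_snd))⟩

instance mul_KK1 : MeasurableMul 𝔇.KK := inferInstance

instance uni_inv : 𝔇.uni.IsMulLeftInvariant := ⟨fun c => (RA.mp_uni 𝔇 c).map_eq⟩

/-- (2) -/
instance nu_inv : (𝔇.nu μ).IsMulLeftInvariant := by
  unfold Dat.nu
  have h1 : (Measure.pi fun _ : Tor l × Fin 4 => μ).IsMulLeftInvariant :=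
    Measure.pi.isMulLeftInvariant (μ := fun _ : Tor l × Fin 4 => μ)
  have h2 : IsProbabilityMeasure 𝔇.uni := RA.uni_prob 𝔇
  exact Measure.prod.instIsMulLeftInvariant

omit [NeZero N] [NeZero l] in
lemma nr_measurable {I : Type*} [Fintype I] : Measurable (nr : (I → SU N) → ℝ) := by
  have : Continuous (nr : (I → SU N) → ℝ) := by
    unfold nr
    refine continuous_finsetSum _ fun y _ => ?_
    have h3 : Continuous fun k : I → SU N => mt (k y) :=
      (continuous_subtype_val.comp continuous_subtype_val).comp (continuous_apply y)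
    exact ((h3.sub continuous_const).norm).pow 2
  exact this.measurable

/-- (4) -/
theorem nrm_meas : Measurable (nrm : 𝔇.KK → ℝ) := by
  have h1 : Measurable fun g : 𝔇.KK => nr g.1 := nr_measurable.comp measurable_fst
  have h2 : Measurable fun g : 𝔇.KK => dz g.2 :=
    (measurable_of_finite (dz : 𝔇.Zc → ℝ)).comp measurable_snd
  exact (h1.add h2).sqrt

/-- (5) volumes of small balls -/
theorem vol_nu : ∃ c : ℝ, 0 < c ∧ ∃ d : ℝ, 0 ≤ d ∧ ∀ s : ℝ, 0 < s → s ≤ 1 →
    ENNReal.ofReal (c * s ^ d) ≤ 𝔇.nu μ {g | nrm g ≤ s} := by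
  classical
  obtain ⟨c, hc, D, h⟩ := Pool.Agent.N991.MK.vol_lower_ofReal (G := SU N) μ
  obtain ⟨P, hP⟩ : ∃ P : ℕ, P = Fintype.card (Tor l × Fin 4) := ⟨_, rfl⟩
  have hP1 : 1 ≤ P := by rw [hP]; exact Fintype.card_pos
  have hP1' : (1 : ℝ) ≤ P := by exact_mod_cast hP1
  have hq : 1 ≤ Real.sqrt P := by
    rw [Real.one_le_sqrt]; exact hP1'
  have hq0 : 0 < Real.sqrt P := by linarith
  have hZ : 0 < Nat.card 𝔇.Zc := Nat.card_pos
  have hZ' : (0 : ℝ) < Nat.card 𝔇.Zc := by exact_mod_cast hZ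
  refine ⟨(c * (1 / Real.sqrt P) ^ D) ^ P * (Nat.card 𝔇.Zc : ℝ)⁻¹, by positivity,
    ((D * P : ℕ) : ℝ), Nat.cast_nonneg _, fun s hs hs1 => ?_⟩
  obtain ⟨s', hs'⟩ : ∃ s', s' = s / Real.sqrt P := ⟨_, rfl⟩
  have hs'0 : 0 < s' := by rw [hs']; positivity
  have hs'1 : s' ≤ 1 := by
    rw [hs', div_le_one hq0]; linarith
  have hsub : (Set.univ.pi fun _ : Tor l × Fin 4 => {g : SU N | ‖mt g - 1‖ ≤ s'}) ×ˢ
      ({1} : Set 𝔇.Zc) ⊆ {g : 𝔇.KK | nrm g ≤ s} := by
    rintro ⟨u, z⟩ ⟨hu, hz⟩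
    rw [Set.mem_singleton_iff] at hz
    show nrm (u, z) ≤ s
    have h1 : nsq ((u, z) : 𝔇.KK) ≤ s ^ 2 := by
      show nr u + dz z ≤ s ^ 2
      have hz' : z = 1 := hz
      rw [hz', dz_one, add_zero]
      unfold nr
      calc ∑ y, ‖mt (u y) - 1‖ ^ 2 ≤ ∑ _y : Tor l × Fin 4, s' ^ 2 := by
            refine Finset.sum_le_sum fun y _ => ?_
            exact pow_le_pow_left₀ (norm_nonneg _) (hu y (Set.mem_univ y)) 2
        _ = P * s' ^ 2 := by
            rw [Finset.sum_const, nsmul_eq_mul, Finset.card_univ, ← hP]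
        _ = s ^ 2 := by
            rw [hs', div_pow, Real.sq_sqrt (by positivity)]
            field_simp
    unfold nrm
    exact (Real.sqrt_le_sqrt h1).trans (by rw [Real.sqrt_sq hs.le])
  refine le_trans ?_ (measure_mono hsub)
  unfold Dat.nu
  have hu : IsProbabilityMeasure 𝔇.uni := RA.uni_prob 𝔇
  rw [Measure.prod_prod, Measure.pi_pi, Finset.prod_const, Finset.card_univ, ← hP,
    RA.uni_singleton]
  have e1 : (c * (1 / Real.sqrt P) ^ D) ^ P * (Nat.card 𝔇.Zc : ℝ)⁻¹ * s ^ ((D * P : ℕ) : ℝ) =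
      (c * s' ^ D) ^ P * (Nat.card 𝔇.Zc : ℝ)⁻¹ := by
    have e2 : c * s' ^ D = c * (1 / Real.sqrt P) ^ D * s ^ D := by
      rw [hs', div_eq_mul_one_div s, mul_pow]; ring
    rw [Real.rpow_natCast, e2, mul_pow (c * (1 / Real.sqrt P) ^ D), ← pow_mul]
    ring
  rw [e1, ENNReal.ofReal_mul (by positivity), ENNReal.ofReal_pow (by positivity),
    ENNReal.ofReal_inv_of_pos hZ', ENNReal.ofReal_natCast]
  gcongr
  exact h s' hs'0 hs'1

end

end Pool.Agent.N984.TW
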