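import Mathlib
import Pool.Agent.N984.TW.Blk
import Pool.Agent.N990.Mach.Iface

/-!
# The blocks: combinatorics
-/

open MeasureTheory Matrix Filter
open scoped Matrix.Norms.Frobenius ContDiff Topology
open Pool.Agent.H906R3.YM Pool.Agent.W793.YM Pool.Agent.TH618.YM
open Pool.Agent.N990.Mach (tch cl)

namespace Pool.Agent.N984.TW

set_option linter.unusedSectionVars false
set_option linter.unusedVariables false

noncomputable section

variable {N l n : ℕ} [NeZero N] [NeZero l]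

lemma dP_self (X : Pl) : dP X X = 0 := by
  unfold dP
  omega

lemma dP_symm (X Y : Pl) : dP X Y = dP Y X := by
  unfold dP
  omega

lemma dP_tri (X Y Z : Pl) : dP X Z ≤ dP X Y + dP Y Z := by
  unfold dP
  omega

lemma dP_growth (W : Finset Pl) (z : Pl) (r : ℕ) :
    ((W.filter fun y => dP z y ≤ r).card : ℝ) ≤ 4 * ((r : ℝ) + 1) ^ 2 := by
  have h1 : (W.filter fun y => dP z y ≤ r) ⊆
      Finset.Icc (z.1 - r) (z.1 + r) ×ˢ Finset.Icc (z.2 - r) (z.2 + r) := by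
    intro y hy
    have h2 := (Finset.mem_filter.1 hy).2
    rw [Finset.mem_product, Finset.mem_Icc, Finset.mem_Icc]
    unfold dP at h2
    omega
  have h3 := Finset.card_le_card h1
  rw [Finset.card_product, Int.card_Icc, Int.card_Icc] at h3
  have h4 : (z.1 + (r : ℤ) + 1 - (z.1 - r)).toNat = 2 * r + 1 := by omega
  have h5 : (z.2 + (r : ℤ) + 1 - (z.2 - r)).toNat = 2 * r + 1 := by omega
  rw [h4, h5] at h3
  have h6 : ((W.filter fun y => dP z y ≤ r).card : ℝ) ≤ ((2 * r + 1) * (2 * r + 1) : ℕ) := by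
    exact_mod_cast h3
  refine h6.trans ?_
  push_cast
  nlinarith [Nat.cast_nonneg (α := ℝ) r]

namespace Dat

/-- the norm of the links over a site -/
lemma nr_split (𝔇 : Dat N l n) (g : 𝔇.KK) :
    nr g.1 = nM 𝔇.φ₀ (phi (𝔇.ph g)) + nr (psi (𝔇.ph g) 0) + nr (psi (𝔇.ph g) 1) := by
  unfold ph
  rw [𝔇.phi_mul_u0, 𝔇.psi_mul_u0, 𝔇.psi_mul_u0]
  have h1 : nM 𝔇.φ₀ (phi g.1 * 𝔇.φ₀) = nr (phi g.1) := by
    unfold nM
    congr 1
    funext e
    rw [Pi.mul_apply, mul_inv_cancel_right]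
  rw [h1]
  unfold nr
  have hp : ∀ F : Tor l × Fin 2 → ℝ, ∑ e, F e = ∑ y : Tor l, (F (y, 0) + F (y, 1)) := by
    intro F
    rw [Fintype.sum_prod_type]
    simp only [Fin.sum_univ_two]
  have hq : ∀ F : Tor l × Fin 4 → ℝ, ∑ e, F e =
      ∑ y : Tor l, (F (y, 0) + F (y, 1) + F (y, 2) + F (y, 3)) := by
    intro F
    rw [Fintype.sum_prod_type]
    simp only [Fin.sum_univ_four]
  rw [hp, hq, ← Finset.sum_add_distrib, ← Finset.sum_add_distrib]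
  refine Finset.sum_congr rfl fun y _ => ?_
  have e0 : psi g.1 0 y = g.1 (y, 0) := rfl
  have e1 : psi g.1 1 y = g.1 (y, 1) := rfl
  have e2 : phi g.1 (y, 0) = g.1 (y, 2) := rfl
  have e3 : phi g.1 (y, 1) = g.1 (y, 3) := rfl
  rw [e0, e1, e2, e3]
  ring

lemma mem_flg {Λ : Finset Pl} {t : Pl} {j : Cn} : j ∈ flg Λ t ↔ t + off j ∈ Λ := by
  unfold flg
  rw [Finset.mem_filter]
  exact ⟨fun h => h.2, fun h => ⟨Finset.mem_univ _, h⟩⟩

lemma mem_spt {Λ : Finset Pl} {t X : Pl} : X ∈ spt Λ t ↔ ∃ j : Cn, t + off j ∈ Λ ∧ t + off j = X := by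
  unfold spt
  rw [Finset.mem_image]
  exact ⟨fun ⟨j, h1, h2⟩ => ⟨j, mem_flg.1 h1, h2⟩, fun ⟨j, h1, h2⟩ => ⟨j, mem_flg.2 h1, h2⟩⟩

lemma spt_diam (Λ : Finset Pl) (t : Pl) : ∀ x ∈ spt Λ t, ∀ y ∈ spt Λ t, dP x y ≤ 1 := by
  intro x hx y hy
  obtain ⟨j, -, rfl⟩ := mem_spt.1 hx
  obtain ⟨k, -, rfl⟩ := mem_spt.1 hy
  have e1 : (t + off j).1 = t.1 + ((j.1 : ℕ) : ℤ) := rfl
  have e2 : (t + off j).2 = t.2 + ((j.2 : ℕ) : ℤ) := rfl
  have e3 : (t + off k).1 = t.1 + ((k.1 : ℕ) : ℤ) := rfl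
  have e4 : (t + off k).2 = t.2 + ((k.2 : ℕ) : ℤ) := rfl
  have h1 := j.1.2
  have h2 := j.2.2
  have h3 := k.1.2
  have h4 := k.2.2
  unfold dP
  rw [e1, e2, e3, e4]
  omega

open scoped Classical in
lemma mem_tchA {ι τ : Type*} {T : Finset τ} {sp : τ → Finset ι} {A : Finset ι} {t : τ} :
    t ∈ tch T sp A ↔ t ∈ T ∧ ¬Disjoint (sp t) A := by
  unfold tch
  exact Finset.mem_filter

lemma TT_card (a b : Pl) (A : Finset Pl) :
    ((tch (TT a b) (spt (Finset.Icc a b)) A).card : ℝ) ≤ 4 * A.card := by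
  classical
  have h1 : tch (TT a b) (spt (Finset.Icc a b)) A ⊆
      A.biUnion fun x => Finset.univ.image fun j : Cn => x - off j := by
    intro t ht
    have h2 := (mem_tchA.1 ht).2
    rw [Finset.not_disjoint_iff] at h2
    obtain ⟨x, hx, hxA⟩ := h2
    obtain ⟨j, -, hj⟩ := mem_spt.1 hx
    rw [Finset.mem_biUnion]
    refine ⟨x, hxA, Finset.mem_image.2 ⟨j, Finset.mem_univ _, ?_⟩⟩
    rw [← hj, add_sub_cancel_right]
  have h3 := Finset.card_le_card h1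
  have h4 : (A.biUnion fun x => Finset.univ.image fun j : Cn => x - off j).card ≤ A.card * 4 := by
    refine Finset.card_biUnion_le_card_mul _ _ _ fun x _ => ?_
    refine Finset.card_image_le.trans ?_
    simp
  have h5 : (tch (TT a b) (spt (Finset.Icc a b)) A).card ≤ 4 * A.card := by omega
  exact_mod_cast h5

lemma off_zero_add (t : Pl) (b : Fin 2) : t + off (1, b) = t + off (0, b) + uP 0 := by
  have e : (uP 0 : Pl) = (1, 0) := rfl
  rw [e]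
  ext
  · show t.1 + ((1 : ℕ) : ℤ) = t.1 + ((0 : ℕ) : ℤ) + 1
    push_cast; ring
  · show t.2 + ((b : ℕ) : ℤ) = t.2 + ((b : ℕ) : ℤ) + 0
    ring

lemma off_one_add (t : Pl) (a : Fin 2) : t + off (a, 1) = t + off (a, 0) + uP 1 := by
  have e : (uP 1 : Pl) = (0, 1) := rfl
  rw [e]
  ext
  · show t.1 + ((a : ℕ) : ℤ) = t.1 + ((a : ℕ) : ℤ) + 0
    ring
  · show t.2 + ((1 : ℕ) : ℤ) = t.2 + ((0 : ℕ) : ℤ) + 1
    push_cast; ring

open scoped Classical in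
/-- each site is the corner `j` of one block -/
lemma sum_corner (a b : Pl) (j : Cn) (f : Pl → ℝ) :
    ∑ t ∈ TT a b, (if t + off j ∈ Finset.Icc a b then f (t + off j) else 0) =
      ∑ X ∈ Finset.Icc a b, f X := by
  rw [← Finset.sum_filter]
  refine Finset.sum_bij' (fun t _ => t + off j) (fun X _ => X - off j) ?_ ?_ ?_ ?_ ?_
  · intro t ht
    exact (Finset.mem_filter.1 ht).2
  · intro X hX
    have e : X - off j + off j = X := by abel
    rw [Finset.mem_filter, e]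
    refine ⟨?_, hX⟩
    unfold TT
    rw [Finset.mem_Icc, Prod.le_def, Prod.le_def] at hX ⊢
    obtain ⟨⟨h1, h2⟩, h3, h4⟩ := hX
    have g1 := j.1.2
    have g2 := j.2.2
    have e1 : (X - off j).1 = X.1 - ((j.1 : ℕ) : ℤ) := rfl
    have e2 : (X - off j).2 = X.2 - ((j.2 : ℕ) : ℤ) := rfl
    have e3 : (a - (1, 1)).1 = a.1 - 1 := rfl
    have e4 : (a - (1, 1)).2 = a.2 - 1 := rfl
    rw [e1, e2, e3, e4]
    refine ⟨⟨?_, ?_⟩, ?_, ?_⟩ <;> omega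
  · intro t _; abel
  · intro X _; abel
  · intro t _; rfl

section meas

variable (𝔇 : Dat N l n) [MeasurableSpace (SU N)] [BorelSpace (SU N)] (μ : Measure (SU N))
  [IsProbabilityMeasure μ] [μ.IsMulLeftInvariant] [μ.IsMulRightInvariant]

open scoped Classical in
/-- the energy is the sum of the energies of the blocks -/
theorem sum_hT (a b : Pl) (δ r β : ℝ) (g : Pl → 𝔇.KK) :
    ∑ t ∈ TT a b, 𝔇.hT μ δ r β (Finset.Icc a b) t g = 𝔇.Hh μ δ r β (Finset.Icc a b) g := by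
  obtain ⟨Λ, hΛ⟩ : ∃ Λ, Λ = Finset.Icc a b := ⟨_, rfl⟩
  -- the functions of the sites
  obtain ⟨f1, hf1⟩ : ∃ f1 : Pl → ℝ, f1 = fun X => 𝔇.fib μ δ β (phi (𝔇.ph (g X))) := ⟨_, rfl⟩
  obtain ⟨f2, hf2⟩ : ∃ f2 : Fin 2 → Pl → ℝ, f2 = fun k X => if X + uP k ∈ Λ then
    𝔇.lnk r β (phi (𝔇.ph (g X))) (psi (𝔇.ph (g X)) k) (phi (𝔇.ph (g (X + uP k)))) else 0 :=
    ⟨_, rfl⟩
  obtain ⟨f3, hf3⟩ : ∃ f3 : Fin 2 → Pl → ℝ, f3 = fun k X => if X + uP k ∈ Λ then 0 else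
    nr (psi (𝔇.ph (g X)) k) := ⟨_, rfl⟩
  obtain ⟨f4, hf4⟩ : ∃ f4 : Pl → ℝ, f4 = fun X =>
    if X + uP 0 ∈ Λ ∧ X + uP 1 ∈ Λ ∧ X + uP 0 + uP 1 ∈ Λ then
      SP (((g X).2 : Tor l → SU N) * psi (𝔇.ph (g X)) 0) (psi (𝔇.ph (g (X + uP 0))) 1)
        (psi (𝔇.ph (g (X + uP 1))) 0) (psi (𝔇.ph (g X)) 1)
    else if (g X).2 = 1 then 0 else 1 := ⟨_, rfl⟩
  have hH : 𝔇.Hh μ δ r β Λ g = ∑ X ∈ Λ, f1 X + (∑ X ∈ Λ, f2 0 X + ∑ X ∈ Λ, f2 1 X) +
      (∑ X ∈ Λ, f3 0 X + ∑ X ∈ Λ, f3 1 X) + ∑ X ∈ Λ, f4 X := by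
    unfold Hh
    simp only [← Finset.sum_add_distrib]
    refine Finset.sum_congr rfl fun X _ => ?_
    rw [Fin.sum_univ_two, hf1, hf2, hf3, hf4]
    simp only
    by_cases h0 : X + uP 0 ∈ Λ <;> by_cases h1 : X + uP 1 ∈ Λ <;>
      simp only [h0, h1, if_true, if_false] <;> ring
  have key : ∀ t, 𝔇.hT μ δ r β Λ t g =
      1 / 4 * (∑ j : Cn, if t + off j ∈ Λ then f1 (t + off j) else 0) +
      1 / 2 * (∑ c : Fin 2, if t + off (0, c) ∈ Λ then f2 0 (t + off (0, c)) else 0) +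
      1 / 2 * (∑ c : Fin 2, if t + off (c, 0) ∈ Λ then f2 1 (t + off (c, 0)) else 0) +
      (if t + off (0, 0) ∈ Λ then f3 0 (t + off (0, 0)) else 0) +
      (if t + off (0, 0) ∈ Λ then f3 1 (t + off (0, 0)) else 0) +
      (if t + off (0, 0) ∈ Λ then f4 (t + off (0, 0)) else 0) := by
    intro t
    unfold hT blk
    simp only [mem_flg]
    congr 1
    · congr 1
      · congr 1
        · congr 1
          · congr 1
            · rw [hf1]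
            · congr 1
              refine Finset.sum_congr rfl fun c _ => ?_
              rw [hf2, off_zero_add t c, ite_and]
          · congr 1
            refine Finset.sum_congr rfl fun c _ => ?_
            rw [hf2, off_one_add t c, ite_and]
        · rw [hf3, off_zero_add t 0, ite_and]
          simp only [ite_not]
      · rw [hf3, off_one_add t 0, ite_and]
        simp only [ite_not]
    · have e1 : t + off (1, 0) = t + off (0, 0) + uP 0 := off_zero_add t 0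
      have e2 : t + off (0, 1) = t + off (0, 0) + uP 1 := off_one_add t 0
      have e3 : t + off (1, 1) = t + off (0, 0) + uP 0 + uP 1 := by
        rw [off_one_add t 1, e1]
      have hdz : ∀ c : 𝔇.Zc, dz c = if c = 1 then 0 else 1 := by
        intro c
        by_cases h : c = 1
        · rw [if_pos h, h, dz_one]
        · rw [if_neg h, dz_ne h]
      rw [hf4, e1, e2, e3, hdz]
  rw [← hΛ, hH]
  simp only [key]
  rw [Finset.sum_add_distrib, Finset.sum_add_distrib, Finset.sum_add_distrib,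
    Finset.sum_add_distrib, Finset.sum_add_distrib, ← Finset.mul_sum, ← Finset.mul_sum,
    ← Finset.mul_sum, Finset.sum_comm, Finset.sum_comm (s := TT a b) (t := (Finset.univ : Finset (Fin 2))),
    Finset.sum_comm (s := TT a b) (t := (Finset.univ : Finset (Fin 2)))]
  rw [hΛ]
  simp only [sum_corner]
  rw [Finset.sum_const, Finset.card_univ, Fintype.card_prod, Fintype.card_fin, Finset.sum_const,
    Finset.sum_const, Finset.card_univ, Fintype.card_fin]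
  simp only [nsmul_eq_mul]
  push_cast
  ring

lemma blk_congr (δ r β : ℝ) (fl : Finset Cn) (g g' : Cn → 𝔇.KK) (h1 : ∀ j ∈ fl, g j = g' j) :
    𝔇.blk μ δ r β fl g = 𝔇.blk μ δ r β fl g' := by
  have e1 : (∑ j : Cn, if j ∈ fl then 𝔇.fib μ δ β (phi (𝔇.ph (g j))) else 0) =
      ∑ j : Cn, if j ∈ fl then 𝔇.fib μ δ β (phi (𝔇.ph (g' j))) else 0 := by
    refine Finset.sum_congr rfl fun j _ => ?_
    by_cases hj : j ∈ fl
    · rw [if_pos hj, if_pos hj, h1 j hj]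
    · rw [if_neg hj, if_neg hj]
  have e2 : (∑ b : Fin 2, if (0, b) ∈ fl ∧ (1, b) ∈ fl then
      𝔇.lnk r β (phi (𝔇.ph (g (0, b)))) (psi (𝔇.ph (g (0, b))) 0) (phi (𝔇.ph (g (1, b))))
      else 0) = ∑ b : Fin 2, if (0, b) ∈ fl ∧ (1, b) ∈ fl then
      𝔇.lnk r β (phi (𝔇.ph (g' (0, b)))) (psi (𝔇.ph (g' (0, b))) 0) (phi (𝔇.ph (g' (1, b))))
      else 0 := by
    refine Finset.sum_congr rfl fun c _ => ?_
    by_cases hj : (0, c) ∈ fl ∧ (1, c) ∈ fl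
    · rw [if_pos hj, if_pos hj, h1 _ hj.1, h1 _ hj.2]
    · rw [if_neg hj, if_neg hj]
  have e3 : (∑ a : Fin 2, if (a, 0) ∈ fl ∧ (a, 1) ∈ fl then
      𝔇.lnk r β (phi (𝔇.ph (g (a, 0)))) (psi (𝔇.ph (g (a, 0))) 1) (phi (𝔇.ph (g (a, 1))))
      else 0) = ∑ a : Fin 2, if (a, 0) ∈ fl ∧ (a, 1) ∈ fl then
      𝔇.lnk r β (phi (𝔇.ph (g' (a, 0)))) (psi (𝔇.ph (g' (a, 0))) 1) (phi (𝔇.ph (g' (a, 1))))
      else 0 := by
    refine Finset.sum_congr rfl fun c _ => ?_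
    by_cases hj : (c, 0) ∈ fl ∧ (c, 1) ∈ fl
    · rw [if_pos hj, if_pos hj, h1 _ hj.1, h1 _ hj.2]
    · rw [if_neg hj, if_neg hj]
  have e4 : (if (0, 0) ∈ fl ∧ (1, 0) ∉ fl then nr (psi (𝔇.ph (g (0, 0))) 0) else 0) =
      if (0, 0) ∈ fl ∧ (1, 0) ∉ fl then nr (psi (𝔇.ph (g' (0, 0))) 0) else 0 := by
    by_cases hj : (0, 0) ∈ fl ∧ (1, 0) ∉ fl
    · rw [if_pos hj, if_pos hj, h1 _ hj.1]
    · rw [if_neg hj, if_neg hj]
  have e5 : (if (0, 0) ∈ fl ∧ (0, 1) ∉ fl then nr (psi (𝔇.ph (g (0, 0))) 1) else 0) =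
      if (0, 0) ∈ fl ∧ (0, 1) ∉ fl then nr (psi (𝔇.ph (g' (0, 0))) 1) else 0 := by
    by_cases hj : (0, 0) ∈ fl ∧ (0, 1) ∉ fl
    · rw [if_pos hj, if_pos hj, h1 _ hj.1]
    · rw [if_neg hj, if_neg hj]
  have e6 : (if (0, 0) ∈ fl then
      (if (1, 0) ∈ fl ∧ (0, 1) ∈ fl ∧ (1, 1) ∈ fl then
        SP (((g (0, 0)).2 : Tor l → SU N) * psi (𝔇.ph (g (0, 0))) 0) (psi (𝔇.ph (g (1, 0))) 1)
          (psi (𝔇.ph (g (0, 1))) 0) (psi (𝔇.ph (g (0, 0))) 1)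
        else dz (g (0, 0)).2) else 0) = if (0, 0) ∈ fl then
      (if (1, 0) ∈ fl ∧ (0, 1) ∈ fl ∧ (1, 1) ∈ fl then
        SP (((g' (0, 0)).2 : Tor l → SU N) * psi (𝔇.ph (g' (0, 0))) 0) (psi (𝔇.ph (g' (1, 0))) 1)
          (psi (𝔇.ph (g' (0, 1))) 0) (psi (𝔇.ph (g' (0, 0))) 1)
        else dz (g' (0, 0)).2) else 0 := by
    by_cases hj : (0, 0) ∈ fl
    · rw [if_pos hj, if_pos hj, h1 _ hj]
      by_cases hk : (1, 0) ∈ fl ∧ (0, 1) ∈ fl ∧ (1, 1) ∈ fl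
      · rw [if_pos hk, if_pos hk, h1 _ hk.1, h1 _ hk.2.1]
      · rw [if_neg hk, if_neg hk]
    · rw [if_neg hj, if_neg hj]
  unfold blk
  rw [e1, e2, e3, e4, e5, e6]

lemma hT_loc (δ r β : ℝ) (Λ : Finset Pl) (t : Pl) (g g' : Pl → 𝔇.KK)
    (h : ∀ X ∈ spt Λ t, g X = g' X) : 𝔇.hT μ δ r β Λ t g = 𝔇.hT μ δ r β Λ t g' :=
  𝔇.blk_congr μ δ r β (flg Λ t) (fun j => g (t + off j)) (fun j => g' (t + off j)) fun j hj =>
    h _ (mem_spt.2 ⟨j, mem_flg.1 hj, rfl⟩)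

end meas

end Dat

end

end Pool.Agent.N984.TW
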