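import Mathlib
import Pool.Agent.N986.PB.SysDecay

/-!
# Systems without boundary: influence, clustering, dependence on the volume

For a system whose supports are contained in `Lam` the sites outside `Lam` can be moved far away;
so the influence estimate holds up to the boundary of `Lam`.
-/

set_option autoImplicit false
set_option linter.unusedSectionVars false
set_option linter.unusedVariables false

open MeasureTheory Finset Function
open scoped ENNReal Classical
open Pool.Agent.N986.PB Pool.Agent.N990.Mach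

namespace Pool.Agent.N726.TW

noncomputable section

variable {ι τ K Y V : Type} [Group K] [MeasurableSpace K]
    [NormedAddCommGroup Y] [NormedSpace ℝ Y] [NormedAddCommGroup V] [NormedSpace ℝ V]
    {ν : Measure K} {c : Cst}

/-- the distance with the sites outside `L` moved away -/
def dd (d : ι → ι → ℕ) (L : Finset ι) (M : ℕ) (x y : ι) : ℕ :=
  if x = y then 0 else d x y + (if x ∈ L then 0 else M) + (if y ∈ L then 0 else M)

lemma dd_in {d : ι → ι → ℕ} {L : Finset ι} {M : ℕ} (h0 : ∀ a, d a a = 0) {x y : ι} (hx : x ∈ L)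
    (hy : y ∈ L) : dd d L M x y = d x y := by
  unfold dd
  by_cases h : x = y
  · subst h; rw [if_pos rfl, h0]
  · rw [if_neg h, if_pos hx, if_pos hy]; omega

lemma le_dd {d : ι → ι → ℕ} {L : Finset ι} {M : ℕ} (h0 : ∀ a, d a a = 0) (x y : ι) :
    d x y ≤ dd d L M x y := by
  unfold dd
  by_cases h : x = y
  · subst h; rw [if_pos rfl, h0]
  · rw [if_neg h]; omega

/-- the system with the sites outside `Lam` moved away -/
def away (S : Sys ι τ K Y V ν c) (hsp : ∀ t ∈ S.T, S.sp t ⊆ S.Lam) (M : ℕ) :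
    Sys ι τ K Y V ν c :=
  { S with
    d := dd S.d S.Lam M
    dself := fun a => by unfold dd; rw [if_pos rfl]
    dsymm := fun a b => by
      unfold dd
      by_cases h : a = b
      · subst h; rfl
      · rw [if_neg h, if_neg (Ne.symm h), S.dsymm a b]; omega
    dtri := fun a b x => by
      have h1 := S.dtri a b x
      unfold dd
      by_cases h2 : a = x
      · rw [if_pos h2]; omega
      · rw [if_neg h2]
        by_cases h3 : a = b
        · subst h3
          rw [if_pos rfl, if_neg h2]; omega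
        · by_cases h4 : b = x
          · subst h4
            rw [if_pos rfl, if_neg h3]; omega
          · rw [if_neg h3, if_neg h4]; omega
    growth := fun W z r => by
      refine le_trans ?_ (S.growth W z r)
      have : (W.filter fun y => dd S.d S.Lam M z y ≤ r) ⊆ W.filter fun y => S.d z y ≤ r := by
        intro y hy
        rw [Finset.mem_filter] at hy ⊢
        exact ⟨hy.1, (le_dd S.dself z y).trans hy.2⟩
      exact_mod_cast Finset.card_le_card this
    diam := fun t ht x hx y hy => by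
      rw [dd_in S.dself (hsp t ht hx) (hsp t ht hy)]
      exact S.diam t ht x hx y hy
    harm := fun A hA z => by
      obtain ⟨w, h1, h2, h3⟩ := S.harm A hA z
      refine ⟨w, h1, h2, fun y hy => (h3 y hy).trans (le_of_eq ?_)⟩
      congr 1
      refine Finset.sum_congr rfl fun x hx => ?_
      have hx1 : x ∈ S.Lam := by
        obtain ⟨t, ht, hxt⟩ := Finset.mem_biUnion.1 (Finset.mem_sdiff.1 hx).1
        exact hsp t (Finset.mem_filter.1 ht).1 hxt
      rw [dd_in S.dself (hA hy) hx1] }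

lemma away_w (S : Sys ι τ K Y V ν c) (hsp : ∀ t ∈ S.T, S.sp t ⊆ S.Lam) (M : ℕ) (β : ℝ) :
    (away S hsp M).w β = S.w β := rfl

/-- the influence estimate up to the boundary of `Lam` -/
theorem infl_in {β m C : ℝ} (hI : Infl Y V ν c β m C) (S : Sys ι τ K Y V ν c)
    (hsp : ∀ t ∈ S.T, S.sp t ⊆ S.Lam) {W A : Finset ι} {r : ℕ} (hW : W ⊆ S.Lam) (hA : A ⊆ S.Lam)
    (hd : ∀ a ∈ A, ∀ y ∈ S.Lam, y ∉ W → r < S.d a y) {f : (ι → K) → ℝ≥0∞} (hf : Measurable f)
    (hf1 : ∀ φ, f φ ≤ 1) (hfA : ∀ φ φ' : ι → K, (∀ a ∈ A, φ a = φ' a) → f φ = f φ')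
    (ψ ψ' : ι → K) :
    ev ν (S.w β) W f ψ ≤ ev ν (S.w β) W f ψ' + A.card * ENNReal.ofReal (C * Real.exp (-(m * r))) := by
  refine hI ι τ (away S hsp (r + 1)) W A r hW (fun a ha y hy => ?_) f hf hf1 hfA ψ ψ'
  show r < dd S.d S.Lam (r + 1) a y
  have hay : a ≠ y := by
    rintro rfl
    have := hd a ha a (hA ha) hy
    rw [S.dself] at this
    omega
  unfold dd
  rw [if_neg hay]
  by_cases hyL : y ∈ S.Lam
  · have := hd a ha y hyL hy
    omega
  · rw [if_neg hyL]; omega

omit [Group K] [MeasurableSpace K] [NormedAddCommGroup Y] [NormedSpace ℝ Y]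
  [NormedAddCommGroup V] [NormedSpace ℝ V] in
lemma mem_tch' {T : Finset τ} {sp : τ → Finset ι} {A : Finset ι} {t : τ} :
    t ∈ tch T sp A ↔ t ∈ T ∧ ∃ y ∈ sp t, y ∈ A := by
  unfold tch
  rw [Finset.mem_filter, Finset.not_disjoint_iff]

section ev

variable [DecidableEq ι] {E : Type*} [MeasurableSpace E] {ν : Measure E} [SigmaFinite ν]
  {w : (ι → E) → ℝ≥0∞}

/-- adding a constant -/
lemma ev_add_const (hw : Good ν w) {V : Finset ι} {f : (ι → E) → ℝ≥0∞} (hf : Measurable f)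
    (η : ℝ≥0∞) (ψ : ι → E) : ev ν w V (fun φ => f φ + η) ψ = ev ν w V f ψ + η := by
  rw [ev_add hw hf, ev_const hw (f := fun _ => η) (c := η) fun φ _ => rfl]

/-- averages of a function of small oscillation -/
lemma ev_osc {w' : (ι → E) → ℝ≥0∞} (hw : Good ν w) (hw' : Good ν w') {V V' : Finset ι}
    {h : (ι → E) → ℝ≥0∞} (hm : Measurable h) {η : ℝ≥0∞} (ho : ∀ ψ ψ', h ψ ≤ h ψ' + η)
    (ψ ψ' : ι → E) : ev ν w V h ψ ≤ ev ν w' V' h ψ' + η := by
  have h1 : ∀ χ, ev ν w V h ψ ≤ h χ + η := by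
    intro χ
    refine (ev_mono hw (fun φ => ho φ χ)).trans (le_of_eq ?_)
    exact ev_const hw fun φ _ => rfl
  rw [← ev_add_const hw' hm, ← ev_const hw' (V := V') (f := fun _ => ev ν w V h ψ) (ψ := ψ')
    (c := ev ν w V h ψ) fun φ _ => rfl]
  exact ev_mono hw' h1

/-- clustering from the decay of the influence -/
lemma ev_cluster (hw : Good ν w) {Λ W : Finset ι} (hW : W ⊆ Λ) {f g : (ι → E) → ℝ≥0∞}
    (hf : Measurable f) (hg : Measurable g) (hg1 : ∀ φ, g φ ≤ 1)
    (hgW : ∀ φ φ' : ι → E, (∀ a ∉ W, φ a = φ' a) → g φ = g φ') {η : ℝ≥0∞}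
    (ho : ∀ ψ ψ', ev ν w W f ψ ≤ ev ν w W f ψ' + η) (ψ : ι → E) :
    ev ν w Λ (fun φ => g φ * f φ) ψ ≤ ev ν w Λ g ψ * ev ν w Λ f ψ + η ∧
      ev ν w Λ g ψ * ev ν w Λ f ψ ≤ ev ν w Λ (fun φ => g φ * f φ) ψ + η := by
  obtain ⟨h, hh⟩ : ∃ h, h = ev ν w W f := ⟨_, rfl⟩
  have hm : Measurable h := by rw [hh]; exact ev_meas hw hf
  have hp : ev ν w Λ (fun φ => g φ * f φ) ψ = ev ν w Λ (fun φ => g φ * h φ) ψ := by
    rw [← ev_ev hw hW (f := fun φ => g φ * f φ) (hg.mul hf)]
    congr 1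
    funext φ
    rw [hh]
    exact ev_const_mul hw hf fun φ' hφ' => hgW _ _ hφ'
  have hp1 : ev ν w Λ f ψ = ev ν w Λ h ψ := by rw [hh, ev_ev hw hW hf]
  have hg2 : ev ν w Λ g ψ ≤ 1 := ev_le_one hw hg1
  obtain ⟨q, hq⟩ : ∃ q, q = ev ν w Λ f ψ := ⟨_, rfl⟩
  have hc : ∀ k : ℝ≥0∞, ev ν w Λ (fun φ => k * g φ) ψ = k * ev ν w Λ g ψ := fun k =>
    ev_const_mul hw hg fun φ _ => rfl
  have h1 : ∀ φ, h φ ≤ q + η := by
    intro φ
    have e1 := ev_osc (V := ∅) (V' := Λ) hw hw hm (by rw [hh]; exact ho) φ ψ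
    rw [← hp1, ← hq] at e1
    refine le_trans (le_of_eq ?_) e1
    exact (ev_const hw fun φ' hφ' => by
      rw [show φ' = φ from funext fun i => hφ' i (Finset.notMem_empty i)]).symm
  have h2 : ∀ φ, q ≤ h φ + η := by
    intro φ
    have e1 := ev_osc (V := Λ) (V' := ∅) hw hw hm (by rw [hh]; exact ho) ψ φ
    rw [← hp1, ← hq] at e1
    refine e1.trans (le_of_eq ?_)
    congr 1
    exact ev_const hw fun φ' hφ' => by
      rw [show φ' = φ from funext fun i => hφ' i (Finset.notMem_empty i)]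
  constructor
  · rw [hp, ← hq]
    calc ev ν w Λ (fun φ => g φ * h φ) ψ ≤ ev ν w Λ (fun φ => (q + η) * g φ) ψ :=
          ev_mono hw fun φ => by rw [mul_comm]; exact mul_le_mul_left (h1 φ) _
      _ = (q + η) * ev ν w Λ g ψ := hc _
      _ = ev ν w Λ g ψ * q + ev ν w Λ g ψ * η := by ring
      _ ≤ ev ν w Λ g ψ * q + 1 * η := by gcongr
      _ = _ := by rw [one_mul]
  · rw [hp, ← hq]
    calc ev ν w Λ g ψ * q = ev ν w Λ (fun φ => q * g φ) ψ := by rw [hc, mul_comm]
      _ ≤ ev ν w Λ (fun φ => g φ * h φ + η) ψ := ev_mono hw fun φ => by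
          calc q * g φ ≤ (h φ + η) * g φ := mul_le_mul_left (h2 φ) _
            _ = g φ * h φ + η * g φ := by ring
            _ ≤ g φ * h φ + η * 1 := by gcongr; exact hg1 φ
            _ = _ := by rw [mul_one]
      _ = _ := ev_add_const hw (hg.mul hm) η ψ

end ev

/-- two systems with the same terms touching `W` have the same conditional expectations -/
lemma ev_same [SigmaFinite ν] (S S' : Sys ι τ K Y V ν c) (β : ℝ) {W : Finset ι}
    (h : ∀ φ, S.HA W φ = S'.HA W φ) {f : (ι → K) → ℝ≥0∞} (hf : Measurable f) :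
    ev ν (S.w β) W f = ev ν (S'.w β) W f := by
  have h1 : S.wB β W = S'.wB β W := by
    funext φ
    unfold Sys.wB
    rw [h]
  funext ψ
  rw [S.ev_local β W hf, S'.ev_local β W hf, h1]

section dec

variable [dec : DecidableEq ι]

lemma good_dec [IsProbabilityMeasure ν] (S : Sys ι τ K Y V ν c) (β : ℝ) : Good ν (S.w β) := by
  obtain rfl : dec = fun a b => Classical.propDecidable (a = b) := Subsingleton.elim _ _
  exact S.good (IsProbabilityMeasure.ne_zero ν) β

theorem infl_dec {β m C : ℝ} (hI : Infl Y V ν c β m C) (S : Sys ι τ K Y V ν c)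
    (hsp : ∀ t ∈ S.T, S.sp t ⊆ S.Lam) {W A : Finset ι} {r : ℕ} (hW : W ⊆ S.Lam) (hA : A ⊆ S.Lam)
    (hd : ∀ a ∈ A, ∀ y ∈ S.Lam, y ∉ W → r < S.d a y) {f : (ι → K) → ℝ≥0∞} (hf : Measurable f)
    (hf1 : ∀ φ, f φ ≤ 1) (hfA : ∀ φ φ' : ι → K, (∀ a ∈ A, φ a = φ' a) → f φ = f φ')
    (ψ ψ' : ι → K) :
    ev ν (S.w β) W f ψ ≤ ev ν (S.w β) W f ψ' +
      A.card * ENNReal.ofReal (C * Real.exp (-(m * r))) := by
  obtain rfl : dec = fun a b => Classical.propDecidable (a = b) := Subsingleton.elim _ _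
  exact infl_in hI S hsp hW hA hd hf hf1 hfA ψ ψ'

lemma same_dec [SigmaFinite ν] (S S' : Sys ι τ K Y V ν c) (β : ℝ) {W : Finset ι}
    (h : ∀ φ, S.HA W φ = S'.HA W φ) {f : (ι → K) → ℝ≥0∞} (hf : Measurable f) :
    ev ν (S.w β) W f = ev ν (S'.w β) W f := by
  obtain rfl : dec = fun a b => Classical.propDecidable (a = b) := Subsingleton.elim _ _
  exact ev_same S S' β h hf

end dec

end

end Pool.Agent.N726.TW
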