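import Mathlib
import Pool.Agent.N984.TW.BlkB
import Pool.Agent.N453.TW.RB4
import Pool.Agent.N726.TW.Fin1

/-!
# Expectations as averages in the gauge fixed ensemble
-/

open MeasureTheory Matrix Filter
open scoped Matrix.Norms.Frobenius Topology ENNReal
open Pool.Agent.H906R3.YM Pool.Agent.W793.YM Pool.Agent.TH618.YM
open Pool.Agent.N990.Mach (tch cl Sys Cst Infl)
open Pool.Agent.N986.PB (ev In Good ev_le_one)
open Pool.Agent.N726.TW

namespace Pool.Agent.N984.TW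

set_option linter.unusedSectionVars false
set_option linter.unusedVariables false

noncomputable section

variable {N l n : ℕ} [NeZero N] [NeZero l]

lemma DepOn.mono {α : Type*} {F : (Pl → Fib N l) → α} {D D' : Finset Pl} (h : DepOn F D)
    (hD : D ⊆ D') : DepOn F D' :=
  fun U U' hU => h U U' fun X p hX hX' => hU X p (hD hX) (hD hX')

variable (𝔇 : Dat N l n) [MeasurableSpace (SU N)] [BorelSpace (SU N)] (μ : Measure (SU N))
  [IsProbabilityMeasure μ] [μ.IsMulLeftInvariant] [μ.IsMulRightInvariant]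

omit [IsProbabilityMeasure μ] [μ.IsMulLeftInvariant] [μ.IsMulRightInvariant] [BorelSpace (SU N)] in
lemma In_one (Λ : Finset Pl) (F : (Pl → 𝔇.KK) → ℝ≥0∞) :
    In (𝔇.nu μ) Λ F 1 = ∫⁻ g, F (𝔇.extK Λ g) ∂(Measure.pi fun _ => 𝔇.nu μ) := by
  unfold In lmarginal
  rfl

section red

variable {𝔇 μ} {δ r β : ℝ} (hδ : 0 < δ) (hδ₀ : δ ≤ 𝔇.δ₀) (hr : 0 < r) (hr₀ : 16 * r ≤ 𝔇.c₀)
    (hβ : 0 < β) {a b : Pl} {w : (Pl → 𝔇.KK) → ℝ≥0∞} (hw : Good (𝔇.nu μ) w)
    (hwe : ∀ g, w g = ENNReal.ofReal (Real.exp (-(β * 𝔇.Hh μ δ r β (Finset.Icc a b) g))))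
include hδ hδ₀ hr hr₀ hβ hw hwe

lemma weight_fin : ∫⁻ u : Finset.Icc a b → Fib N l, ENNReal.ofReal
    (Real.exp (-(β * action 𝔇.z (Finset.Icc a b) (ext (Finset.Icc a b) u))))
      ∂(muL μ (Finset.Icc a b)) ≠ ∞ ∧ ∫⁻ u : Finset.Icc a b → Fib N l, ENNReal.ofReal
    (Real.exp (-(β * action 𝔇.z (Finset.Icc a b) (ext (Finset.Icc a b) u))))
      ∂(muL μ (Finset.Icc a b)) ≠ 0 := by
  obtain ⟨C, hC0, hCt, hred⟩ := reduction 𝔇 μ hδ hδ₀ hr hr₀ hβ a b
  have e2 := hred (fun _ => 1) measurable_const (fun _ _ => rfl) (fun _ _ _ => rfl)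
  simp only [one_mul] at e2
  rw [e2]
  have e3 : ∫⁻ g, ENNReal.ofReal (Real.exp (-(β * 𝔇.Hh μ δ r β (Finset.Icc a b)
      (𝔇.extK (Finset.Icc a b) g)))) ∂(Measure.pi fun _ => 𝔇.nu μ) =
      In (𝔇.nu μ) (Finset.Icc a b) w 1 := by
    rw [In_one]
    exact lintegral_congr fun g => (hwe _).symm
  rw [e3]
  exact ⟨ENNReal.mul_ne_top hCt (hw.fin _ _), mul_ne_zero hC0 (hw.pos _ _)⟩

lemma expect_avg {F : (Pl → Fib N l) → ℝ} (hm : Measurable F) (h0 : ∀ U, 0 ≤ F U)
    (hi : GaugeInv F) (hD : DepOn F (Finset.Icc a b)) :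
    expect μ 𝔇.z β (Finset.Icc a b) F =
      (ev (𝔇.nu μ) w (Finset.Icc a b) (fun g => ENNReal.ofReal (F (𝔇.lift a.2 g))) 1).toReal := by
  obtain ⟨C, hC0, hCt, hred⟩ := reduction 𝔇 μ hδ hδ₀ hr hr₀ hβ a b
  have e1 := hred (fun U => ENNReal.ofReal (F U)) (ENNReal.measurable_ofReal.comp hm)
    (fun h U => by simp only [hi h U]) (fun U U' h => by simp only [hD U U' h])
  have e2 := hred (fun _ => 1) measurable_const (fun _ _ => rfl) (fun _ _ _ => rfl)
  simp only [one_mul] at e2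
  have e3 : ∫⁻ g, ENNReal.ofReal (Real.exp (-(β * 𝔇.Hh μ δ r β (Finset.Icc a b)
      (𝔇.extK (Finset.Icc a b) g)))) ∂(Measure.pi fun _ => 𝔇.nu μ) =
      In (𝔇.nu μ) (Finset.Icc a b) w 1 := by
    rw [In_one]
    exact lintegral_congr fun g => (hwe _).symm
  have e4 : ∫⁻ g, ENNReal.ofReal (F (𝔇.lift a.2 (𝔇.extK (Finset.Icc a b) g))) *
      ENNReal.ofReal (Real.exp (-(β * 𝔇.Hh μ δ r β (Finset.Icc a b)
      (𝔇.extK (Finset.Icc a b) g)))) ∂(Measure.pi fun _ => 𝔇.nu μ) =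
      In (𝔇.nu μ) (Finset.Icc a b) (fun g => w g * ENNReal.ofReal (F (𝔇.lift a.2 g))) 1 := by
    rw [In_one]
    exact lintegral_congr fun g => by rw [← hwe, mul_comm]
  rw [e3] at e2
  rw [e4] at e1
  have mE : Measurable (ext (Finset.Icc a b) : _ → Pl → Fib N l) := RA.meas_ext _
  have mW : Measurable fun u : Finset.Icc a b → Fib N l =>
      Real.exp (-(β * action 𝔇.z (Finset.Icc a b) (ext (Finset.Icc a b) u))) :=
    Real.measurable_exp.comp ((((RA.meas_action (Finset.Icc a b) 𝔇.z).comp mE).const_mul β).neg)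
  unfold expect
  rw [integral_eq_lintegral_of_nonneg_ae
      (ae_of_all _ fun u => mul_nonneg (h0 _) (Real.exp_pos _).le)
      (((hm.comp mE).mul mW).aestronglyMeasurable),
    integral_eq_lintegral_of_nonneg_ae (ae_of_all _ fun u => (Real.exp_pos _).le)
      mW.aestronglyMeasurable, ← ENNReal.toReal_div, e2]
  congr 1
  have e5 : ∫⁻ u, ENNReal.ofReal (F (ext (Finset.Icc a b) u) *
      Real.exp (-(β * action 𝔇.z (Finset.Icc a b) (ext (Finset.Icc a b) u))))
        ∂(muL μ (Finset.Icc a b)) = C * In (𝔇.nu μ) (Finset.Icc a b)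
      (fun g => w g * ENNReal.ofReal (F (𝔇.lift a.2 g))) 1 := by
    rw [← e1]
    exact lintegral_congr fun u => ENNReal.ofReal_mul (h0 _)
  rw [e5, ENNReal.mul_div_mul_left _ _ hC0 hCt]
  rfl

lemma expect_lin {F G H : (Pl → Fib N l) → ℝ} (hF : Measurable F) (hG : Measurable G)
    (hH : Measurable H) {B : ℝ} (hFb : ∀ U, |F U| ≤ B) (hGb : ∀ U, |G U| ≤ B)
    (hHb : ∀ U, |H U| ≤ B) (x y z s : ℝ) :
    expect μ 𝔇.z β (Finset.Icc a b) (fun U => x * F U + y * G U + z * H U + s) =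
      x * expect μ 𝔇.z β (Finset.Icc a b) F + y * expect μ 𝔇.z β (Finset.Icc a b) G +
      z * expect μ 𝔇.z β (Finset.Icc a b) H + s := by
  obtain ⟨h1, h2⟩ := weight_fin hδ hδ₀ hr hr₀ hβ hw hwe
  have mE : Measurable (ext (Finset.Icc a b) : _ → Pl → Fib N l) := RA.meas_ext _
  obtain ⟨W, hW⟩ : ∃ W : (Finset.Icc a b → Fib N l) → ℝ, W = fun u =>
    Real.exp (-(β * action 𝔇.z (Finset.Icc a b) (ext (Finset.Icc a b) u))) := ⟨_, rfl⟩
  have mW : Measurable W := by
    rw [hW]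
    exact Real.measurable_exp.comp
      ((((RA.meas_action (Finset.Icc a b) 𝔇.z).comp mE).const_mul β).neg)
  have W0 : ∀ u, 0 ≤ W u := fun u => by rw [hW]; exact (Real.exp_pos _).le
  have iW : Integrable W (muL μ (Finset.Icc a b)) := by
    rw [← lintegral_ofReal_ne_top_iff_integrable mW.aestronglyMeasurable (ae_of_all _ W0)]
    rw [hW]
    exact h1
  have Z0 : ∫ u, W u ∂(muL μ (Finset.Icc a b)) ≠ 0 := by
    rw [integral_eq_lintegral_of_nonneg_ae (ae_of_all _ W0) mW.aestronglyMeasurable]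
    rw [Ne, ENNReal.toReal_eq_zero_iff, not_or, hW]
    exact ⟨h2, h1⟩
  have iF : ∀ {F : (Pl → Fib N l) → ℝ}, Measurable F → (∀ U, |F U| ≤ B) →
      Integrable (fun u => F (ext (Finset.Icc a b) u) * W u) (muL μ (Finset.Icc a b)) := by
    intro F hF hFb
    exact iW.bdd_mul (c := B) (hF.comp mE).aestronglyMeasurable
      (ae_of_all _ fun u => by rw [Real.norm_eq_abs]; exact hFb _)
  have key : ∫ u, (x * F (ext (Finset.Icc a b) u) + y * G (ext (Finset.Icc a b) u) +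
      z * H (ext (Finset.Icc a b) u) + s) * W u ∂(muL μ (Finset.Icc a b)) =
      x * ∫ u, F (ext (Finset.Icc a b) u) * W u ∂(muL μ (Finset.Icc a b)) +
      y * ∫ u, G (ext (Finset.Icc a b) u) * W u ∂(muL μ (Finset.Icc a b)) +
      z * ∫ u, H (ext (Finset.Icc a b) u) * W u ∂(muL μ (Finset.Icc a b)) +
      s * ∫ u, W u ∂(muL μ (Finset.Icc a b)) := by
    have i1 := (iF hF hFb).const_mul x
    have i2 := (iF hG hGb).const_mul y
    have i3 := (iF hH hHb).const_mul z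
    have i4 := iW.const_mul s
    have i5 : Integrable (fun u => x * (F (ext (Finset.Icc a b) u) * W u) +
        y * (G (ext (Finset.Icc a b) u) * W u)) (muL μ (Finset.Icc a b)) := i1.add i2
    have i6 : Integrable (fun u => x * (F (ext (Finset.Icc a b) u) * W u) +
        y * (G (ext (Finset.Icc a b) u) * W u) +
        z * (H (ext (Finset.Icc a b) u) * W u)) (muL μ (Finset.Icc a b)) := i5.add i3
    rw [← integral_const_mul, ← integral_const_mul, ← integral_const_mul, ← integral_const_mul,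
      ← integral_add i1 i2, ← integral_add i5 i3, ← integral_add i6 i4]
    refine integral_congr_ae (ae_of_all _ fun u => ?_)
    show (_ : ℝ) = _
    ring
  have hWu : ∀ u, Real.exp (-(β * action 𝔇.z (Finset.Icc a b) (ext (Finset.Icc a b) u))) = W u :=
    fun u => by rw [hW]
  unfold expect
  simp only [hWu]
  rw [key]
  field_simp

end red

end

end Pool.Agent.N984.TW
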