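import Mathlib
import Pool.Agent.N726.TW.Fin2

/-!
# Finite and infinite volume theorems from the machine
-/

open MeasureTheory Matrix Filter
open scoped Matrix.Norms.Frobenius Topology ENNReal
open Pool.Agent.H906R3.YM Pool.Agent.W793.YM Pool.Agent.TH618.YM
open Pool.Agent.N990.Mach (tch cl Sys Cst Infl)
open Pool.Agent.N986.PB (ev In Good ev_le_one ev_const ev_ev)
open Pool.Agent.N726.TW

namespace Pool.Agent.N984.TW

set_option linter.unusedSectionVars false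
set_option linter.unusedVariables false

noncomputable section

variable {N l n : ℕ} [NeZero N] [NeZero l]
variable (𝔇 : Dat N l n) [MeasurableSpace (SU N)] [BorelSpace (SU N)] (μ : Measure (SU N))
  [IsProbabilityMeasure μ] [μ.IsMulLeftInvariant] [μ.IsMulRightInvariant]

/-- the observable in the ensemble, scaled to `[0,1]` -/
def obf (F : (Pl → Fib N l) → ℝ) (s : ℤ) (g : Pl → 𝔇.KK) : ℝ≥0∞ :=
  ENNReal.ofReal ((F (𝔇.lift s g) + 1) / 2)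

variable {F : (Pl → Fib N l) → ℝ} {a b a₁ b₁ : Pl}

lemma Obs.sc (hF : Obs F a₁ b₁) (U : Pl → Fib N l) : 0 ≤ (F U + 1) / 2 ∧ (F U + 1) / 2 ≤ 1 := by
  have := abs_le.1 (hF.bdd U)
  constructor <;> linarith [this.1, this.2]

lemma obf_meas (hF : Obs F a₁ b₁) (s : ℤ) : Measurable (obf 𝔇 F s) := by
  unfold obf
  exact ENNReal.measurable_ofReal.comp
    (((hF.meas.comp (lift_meas 𝔇 s)).add_const 1).div_const 2)

lemma obf_le (hF : Obs F a₁ b₁) (s : ℤ) (g : Pl → 𝔇.KK) : obf 𝔇 F s g ≤ 1 := by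
  unfold obf
  rw [← ENNReal.ofReal_one]
  exact ENNReal.ofReal_le_ofReal (hF.sc _).2

lemma obf_dep (hF : Obs F a₁ b₁) (g g' : Pl → 𝔇.KK) (h : ∀ X ∈ Finset.Icc a₁ b₁, g X = g' X) :
    obf 𝔇 F a₁.2 g = obf 𝔇 F a₁.2 g' := by
  unfold obf
  rw [lift_local 𝔇 hF.dep g g' h]

lemma obs_base (hF : Obs F a₁ b₁) (h : Finset.Icc a₁ b₁ ⊆ Finset.Icc a b) (g : Pl → 𝔇.KK) :
    F (𝔇.lift a.2 g) = F (𝔇.lift a₁.2 g) := by
  by_cases hn : a₁ ≤ b₁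
  · have h1 := h (Finset.mem_Icc.2 ⟨le_rfl, hn⟩)
    exact lift_base 𝔇 hF.inv hF.dep (Prod.le_def.1 (Finset.mem_Icc.1 h1).1).2 g
  · refine hF.dep _ _ fun X p hX _ => ?_
    rw [Finset.Icc_eq_empty hn] at hX
    exact absurd hX (Finset.notMem_empty X)

section red

variable {𝔇 μ} {δ r β : ℝ} (hδ : 0 < δ) (hδ₀ : δ ≤ 𝔇.δ₀) (hr : 0 < r) (hr₀ : 16 * r ≤ 𝔇.c₀)
    (hβ : 0 < β) {w : (Pl → 𝔇.KK) → ℝ≥0∞} (hw : Good (𝔇.nu μ) w)
    (hwe : ∀ g, w g = ENNReal.ofReal (Real.exp (-(β * 𝔇.Hh μ δ r β (Finset.Icc a b) g))))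
include hδ hδ₀ hr hr₀ hβ hw hwe

lemma obs_sc_expect (hF : Obs F a₁ b₁) (h : Finset.Icc a₁ b₁ ⊆ Finset.Icc a b) :
    expect μ 𝔇.z β (Finset.Icc a b) (fun U => (F U + 1) / 2) =
      (ev (𝔇.nu μ) w (Finset.Icc a b) (obf 𝔇 F a₁.2) 1).toReal := by
  rw [expect_avg hδ hδ₀ hr hr₀ hβ hw hwe ((hF.meas.add_const 1).div_const 2)
    (fun U => (hF.sc U).1) (fun h U => by simp only [hF.inv h U])
    (fun U U' hU => by simp only [(hF.dep.mono h) U U' hU])]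
  congr 2
  funext g
  unfold obf
  rw [obs_base 𝔇 hF h]

lemma obs_expect (hF : Obs F a₁ b₁) (h : Finset.Icc a₁ b₁ ⊆ Finset.Icc a b) :
    expect μ 𝔇.z β (Finset.Icc a b) F =
      2 * (ev (𝔇.nu μ) w (Finset.Icc a b) (obf 𝔇 F a₁.2) 1).toReal - 1 := by
  have e1 : F = fun U => 2 * ((F U + 1) / 2) + 0 * ((F U + 1) / 2) + 0 * ((F U + 1) / 2) +
      (-1 : ℝ) := by
    funext U; ring
  have hm : Measurable fun U => (F U + 1) / 2 := (hF.meas.add_const 1).div_const 2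
  have hb : ∀ U, |(F U + 1) / 2| ≤ 1 := fun U => by
    rw [abs_of_nonneg (hF.sc U).1]; exact (hF.sc U).2
  have e2 := expect_lin hδ hδ₀ hr hr₀ hβ hw hwe hm hm hm hb hb hb 2 0 0 (-1)
  rw [← e1] at e2
  rw [e2, obs_sc_expect hδ hδ₀ hr hr₀ hβ hw hwe hF h]
  ring

lemma obs_cluster (hβ1 : 1 ≤ β) {F₁ F₂ : (Pl → Fib N l) → ℝ} {a₂ b₂ : Pl} (hF₁ : Obs F₁ a₁ b₁)
    (hF₂ : Obs F₂ a₂ b₂) (h₁ : Finset.Icc a₁ b₁ ⊆ Finset.Icc a b)
    (h₂ : Finset.Icc a₂ b₂ ⊆ Finset.Icc a b) {e : ℝ} (he : 0 ≤ e)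
    (ho : ∀ ψ ψ', ev (𝔇.nu μ) w (Finset.Icc a b \ Finset.Icc a₂ b₂) (obf 𝔇 F₁ a₁.2) ψ ≤
      ev (𝔇.nu μ) w (Finset.Icc a b \ Finset.Icc a₂ b₂) (obf 𝔇 F₁ a₁.2) ψ' + ENNReal.ofReal e) :
    |expect μ 𝔇.z β (Finset.Icc a b) (fun U => F₁ U * F₂ U) -
      expect μ 𝔇.z β (Finset.Icc a b) F₁ * expect μ 𝔇.z β (Finset.Icc a b) F₂| ≤ 4 * e := by
  have hm₁ : Measurable fun U => (F₁ U + 1) / 2 := (hF₁.meas.add_const 1).div_const 2
  have hm₂ : Measurable fun U => (F₂ U + 1) / 2 := (hF₂.meas.add_const 1).div_const 2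
  have hb₁ : ∀ U, |(F₁ U + 1) / 2| ≤ 1 := fun U => by
    rw [abs_of_nonneg (hF₁.sc U).1]; exact (hF₁.sc U).2
  have hb₂ : ∀ U, |(F₂ U + 1) / 2| ≤ 1 := fun U => by
    rw [abs_of_nonneg (hF₂.sc U).1]; exact (hF₂.sc U).2
  have hb₃ : ∀ U, |(F₁ U + 1) / 2 * ((F₂ U + 1) / 2)| ≤ 1 := fun U => by
    rw [abs_mul]
    exact mul_le_one₀ (hb₁ U) (abs_nonneg _) (hb₂ U)
  have e1 : (fun U => F₁ U * F₂ U) = fun U => 4 * ((F₁ U + 1) / 2 * ((F₂ U + 1) / 2)) +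
      (-2) * ((F₁ U + 1) / 2) + (-2) * ((F₂ U + 1) / 2) + 1 := by
    funext U; ring
  have hm₃ : Measurable fun U => (F₁ U + 1) / 2 * ((F₂ U + 1) / 2) := hm₁.mul hm₂
  have e2 := expect_lin hδ hδ₀ hr hr₀ hβ hw hwe hm₃ hm₁ hm₂ hb₃ hb₁ hb₂ 4 (-2) (-2) 1
  have e3 : expect μ 𝔇.z β (Finset.Icc a b) (fun U => (F₁ U + 1) / 2 * ((F₂ U + 1) / 2)) =
      (ev (𝔇.nu μ) w (Finset.Icc a b) (fun g => obf 𝔇 F₂ a₂.2 g * obf 𝔇 F₁ a₁.2 g) 1).toReal := by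
    rw [expect_avg hδ hδ₀ hr hr₀ hβ hw hwe hm₃
      (fun U => mul_nonneg (hF₁.sc U).1 (hF₂.sc U).1)
      (fun h U => by simp only [hF₁.inv h U, hF₂.inv h U])
      (fun U U' hU => by simp only [(hF₁.dep.mono h₁) U U' hU, (hF₂.dep.mono h₂) U U' hU])]
    congr 2
    funext g
    unfold obf
    rw [obs_base 𝔇 hF₁ h₁, obs_base 𝔇 hF₂ h₂, mul_comm ((F₁ _ + 1) / 2),
      ENNReal.ofReal_mul (hF₂.sc _).1]
  have c := ev_cluster hw (Λ := Finset.Icc a b) (W := Finset.Icc a b \ Finset.Icc a₂ b₂)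
    Finset.sdiff_subset (obf_meas 𝔇 hF₁ a₁.2) (obf_meas 𝔇 hF₂ a₂.2) (obf_le 𝔇 hF₂ a₂.2)
    (fun φ φ' h => obf_dep 𝔇 hF₂ φ φ' fun X hX => h X fun hX' =>
      (Finset.mem_sdiff.1 hX').2 hX) ho 1
  obtain ⟨p, hp⟩ : ∃ p, p = ev (𝔇.nu μ) w (Finset.Icc a b)
    (fun g => obf 𝔇 F₂ a₂.2 g * obf 𝔇 F₁ a₁.2 g) 1 := ⟨_, rfl⟩
  obtain ⟨p₁, hp₁⟩ : ∃ p, p = ev (𝔇.nu μ) w (Finset.Icc a b) (obf 𝔇 F₁ a₁.2) 1 := ⟨_, rfl⟩
  obtain ⟨p₂, hp₂⟩ : ∃ p, p = ev (𝔇.nu μ) w (Finset.Icc a b) (obf 𝔇 F₂ a₂.2) 1 := ⟨_, rfl⟩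
  have l1 : p ≤ 1 := by
    rw [hp]
    exact ev_le_one hw fun φ => mul_le_one' (obf_le 𝔇 hF₂ _ _) (obf_le 𝔇 hF₁ _ _)
  have l2 : p₁ ≤ 1 := by rw [hp₁]; exact ev_le_one hw (obf_le 𝔇 hF₁ _)
  have l3 : p₂ ≤ 1 := by rw [hp₂]; exact ev_le_one hw (obf_le 𝔇 hF₂ _)
  rw [← hp, ← hp₁, ← hp₂] at c
  have t1 : p ≠ ∞ := ne_top_of_le_ne_top ENNReal.one_ne_top l1
  have t2 : p₁ ≠ ∞ := ne_top_of_le_ne_top ENNReal.one_ne_top l2
  have t3 : p₂ ≠ ∞ := ne_top_of_le_ne_top ENNReal.one_ne_top l3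
  have c1 : p.toReal ≤ p₂.toReal * p₁.toReal + e := by
    have := ENNReal.toReal_mono (ENNReal.add_ne_top.2 ⟨ENNReal.mul_ne_top t3 t2,
      ENNReal.ofReal_ne_top⟩) c.1
    rwa [ENNReal.toReal_add (ENNReal.mul_ne_top t3 t2) ENNReal.ofReal_ne_top, ENNReal.toReal_mul,
      ENNReal.toReal_ofReal he] at this
  have c2 : p₂.toReal * p₁.toReal ≤ p.toReal + e := by
    have := ENNReal.toReal_mono (ENNReal.add_ne_top.2 ⟨t1, ENNReal.ofReal_ne_top⟩) c.2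
    rwa [ENNReal.toReal_add t1 ENNReal.ofReal_ne_top, ENNReal.toReal_mul,
      ENNReal.toReal_ofReal he] at this
  rw [e1, e2, e3, obs_sc_expect hδ hδ₀ hr hr₀ hβ hw hwe hF₁ h₁,
    obs_sc_expect hδ hδ₀ hr hr₀ hβ hw hwe hF₂ h₂, obs_expect hδ hδ₀ hr hr₀ hβ hw hwe hF₁ h₁,
    obs_expect hδ hδ₀ hr hr₀ hβ hw hwe hF₂ h₂, ← hp, ← hp₁, ← hp₂, abs_le]
  constructor <;> nlinarith

end red

section geo

/-- the sites at distance at least two from the complement -/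
def inn (a b : Pl) : Finset Pl := Finset.Icc (a + (1, 1)) (b - (1, 1))

lemma mem_inn {X : Pl} : X ∈ inn a b ↔ a.1 + 1 ≤ X.1 ∧ a.2 + 1 ≤ X.2 ∧ X.1 ≤ b.1 - 1 ∧
    X.2 ≤ b.2 - 1 := by
  unfold inn
  rw [Finset.mem_Icc, Prod.le_def, Prod.le_def]
  show (a.1 + 1 ≤ X.1 ∧ a.2 + 1 ≤ X.2) ∧ X.1 ≤ b.1 - 1 ∧ X.2 ≤ b.2 - 1 ↔ _
  tauto

lemma mem_box {X : Pl} : X ∈ Finset.Icc a b ↔ a.1 ≤ X.1 ∧ a.2 ≤ X.2 ∧ X.1 ≤ b.1 ∧ X.2 ≤ b.2 := by
  rw [Finset.mem_Icc, Prod.le_def, Prod.le_def]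
  tauto

lemma inn_sub : inn a b ⊆ Finset.Icc a b := by
  intro X hX
  rw [mem_inn] at hX
  rw [mem_box]
  omega

lemma off00 : off (0, 0) = 0 := by
  unfold off
  simp

/-- all corners of a block which meets the inner sites are in the box -/
lemma corner_mem {t : Pl} {j : Cn} (h : t + off j ∈ inn a b) (j' : Cn) :
    t + off j' ∈ Finset.Icc a b := by
  rw [mem_inn] at h
  rw [mem_box]
  have h1 : (t + off j).1 = t.1 + ((j.1 : ℕ) : ℤ) := rfl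
  have h2 : (t + off j).2 = t.2 + ((j.2 : ℕ) : ℤ) := rfl
  have h3 : (t + off j').1 = t.1 + ((j'.1 : ℕ) : ℤ) := rfl
  have h4 : (t + off j').2 = t.2 + ((j'.2 : ℕ) : ℤ) := rfl
  have h5 : (j.1 : ℕ) ≤ 1 := by omega
  have h6 : (j.2 : ℕ) ≤ 1 := by omega
  have h7 : (j'.1 : ℕ) ≤ 1 := by omega
  have h8 : (j'.2 : ℕ) ≤ 1 := by omega
  rw [h1, h2] at h
  rw [h3, h4]
  omega

lemma dist_inn {X y : Pl} {R : ℕ} (hX : ∀ Y ∉ Finset.Icc a b, R < dP X Y)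
    (hy : y ∈ Finset.Icc a b) (hyi : y ∉ inn a b) : R ≤ dP X y := by
  rw [mem_box] at hy
  rw [mem_inn] at hyi
  have key : ∀ e : Pl, e.1.natAbs ≤ 1 → e.2.natAbs ≤ 1 → y + e ∉ Finset.Icc a b →
      R ≤ dP X y := by
    intro e h1 h2 h3
    have h4 := hX _ h3
    unfold dP at h4 ⊢
    have h5 : (y + e).1 = y.1 + e.1 := rfl
    have h6 : (y + e).2 = y.2 + e.2 := rfl
    rw [h5, h6] at h4
    omega
  by_cases c1 : y.1 = a.1
  · refine key (-1, 0) (by decide) (by decide) fun h => ?_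
    have := (mem_box.1 h).1
    have h5 : (y + (-1, 0)).1 = y.1 + -1 := rfl
    omega
  by_cases c2 : y.2 = a.2
  · refine key (0, -1) (by decide) (by decide) fun h => ?_
    have := (mem_box.1 h).2.1
    have h5 : (y + (0, -1)).2 = y.2 + -1 := rfl
    omega
  by_cases c3 : y.1 = b.1
  · refine key (1, 0) (by decide) (by decide) fun h => ?_
    have := (mem_box.1 h).2.2.1
    have h5 : (y + (1, 0)).1 = y.1 + 1 := rfl
    omega
  by_cases c4 : y.2 = b.2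
  · refine key (0, 1) (by decide) (by decide) fun h => ?_
    have := (mem_box.1 h).2.2.2
    have h5 : (y + (0, 1)).2 = y.2 + 1 := rfl
    omega
  · exact absurd ⟨by omega, by omega, by omega, by omega⟩ hyi

lemma mem_flg {Λ : Finset Pl} {t : Pl} {j : Cn} : j ∈ Dat.flg Λ t ↔ t + off j ∈ Λ := by
  unfold Dat.flg
  rw [Finset.mem_filter]
  exact ⟨fun h => h.2, fun h => ⟨Finset.mem_univ _, h⟩⟩

lemma mem_spt {Λ : Finset Pl} {t x : Pl} : x ∈ Dat.spt Λ t ↔ x ∈ Λ ∧ ∃ j, t + off j = x := by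
  unfold Dat.spt
  rw [Finset.mem_image]
  constructor
  · rintro ⟨j, h1, h2⟩
    rw [mem_flg] at h1
    exact ⟨h2 ▸ h1, j, h2⟩
  · rintro ⟨h1, j, h2⟩
    exact ⟨j, mem_flg.2 (h2 ▸ h1), h2⟩

lemma touch_iff {t : Pl} : t ∈ tch (Dat.TT a b) (Dat.spt (Finset.Icc a b)) (inn a b) ↔
    ∃ j, t + off j ∈ inn a b := by
  rw [mem_tch']
  constructor
  · rintro ⟨-, x, hx, hxi⟩
    obtain ⟨-, j, hj⟩ := mem_spt.1 hx
    exact ⟨j, hj ▸ hxi⟩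
  · rintro ⟨j, hj⟩
    refine ⟨?_, t + off j, mem_spt.2 ⟨corner_mem hj j, j, rfl⟩, hj⟩
    have h := corner_mem hj (0, 0)
    rw [off00, add_zero, mem_box] at h
    unfold Dat.TT
    rw [Finset.mem_Icc, Prod.le_def, Prod.le_def]
    have h5 : (a - (1, 1)).1 = a.1 - 1 := rfl
    have h6 : (a - (1, 1)).2 = a.2 - 1 := rfl
    rw [h5, h6]
    omega

lemma touch_iff' {a' b' : Pl} (h : Finset.Icc a b ⊆ Finset.Icc a' b') {t : Pl} :
    t ∈ tch (Dat.TT a' b') (Dat.spt (Finset.Icc a' b')) (inn a b) ↔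
      ∃ j, t + off j ∈ inn a b := by
  rw [mem_tch']
  constructor
  · rintro ⟨-, x, hx, hxi⟩
    obtain ⟨-, j, hj⟩ := mem_spt.1 hx
    exact ⟨j, hj ▸ hxi⟩
  · rintro ⟨j, hj⟩
    refine ⟨?_, t + off j, mem_spt.2 ⟨h (corner_mem hj j), j, rfl⟩, hj⟩
    have h := h (corner_mem hj (0, 0))
    rw [off00, add_zero, mem_box] at h
    unfold Dat.TT
    rw [Finset.mem_Icc, Prod.le_def, Prod.le_def]
    have h5 : (a' - (1, 1)).1 = a'.1 - 1 := rfl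
    have h6 : (a' - (1, 1)).2 = a'.2 - 1 := rfl
    rw [h5, h6]
    omega

end geo

section fin

variable {𝔇 μ} {δ r : ℝ} {Y V : Type} [NormedAddCommGroup Y] [NormedSpace ℝ Y]
  [NormedAddCommGroup V] [NormedSpace ℝ V] {c : Cst} {β m C : ℝ}

/-- the system of the rectangle -/
structure SysFor (S : Sys Pl Pl 𝔇.KK Y V (𝔇.nu μ) c) (δ r β : ℝ) (a b : Pl) : Prop where
  L : S.Lam = Finset.Icc a b
  d : S.d = dP
  T : S.T = Dat.TT a b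
  sp : S.sp = Dat.spt (Finset.Icc a b)
  h : ∀ t g, S.h t g = 𝔇.hT μ δ r β (Finset.Icc a b) t g

namespace SysFor

variable {S : Sys Pl Pl 𝔇.KK Y V (𝔇.nu μ) c} (hS : SysFor S δ r β a b)
include hS

lemma sub : ∀ t ∈ S.T, S.sp t ⊆ S.Lam := by
  intro t _ x hx
  rw [hS.sp] at hx
  rw [hS.L]
  exact (mem_spt.1 hx).1

lemma w_eq (g : Pl → 𝔇.KK) : S.w β g =
    ENNReal.ofReal (Real.exp (-(β * 𝔇.Hh μ δ r β (Finset.Icc a b) g))) := by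
  unfold Sys.w Sys.H
  rw [hS.T, ← 𝔇.sum_hT μ a b δ r β g]
  congr 4
  exact Finset.sum_congr rfl fun t _ => hS.h t g

lemma infl (hI : Infl Y V (𝔇.nu μ) c β m C) {F : (Pl → Fib N l) → ℝ} (hF : Obs F a₁ b₁)
    (h : Finset.Icc a₁ b₁ ⊆ Finset.Icc a b) {W : Finset Pl} (hW : W ⊆ Finset.Icc a b) {R : ℕ}
    (hd : ∀ X ∈ Finset.Icc a₁ b₁, ∀ y ∈ Finset.Icc a b, y ∉ W → R < dP X y)
    (ψ ψ' : Pl → 𝔇.KK) :
    ev (𝔇.nu μ) (S.w β) W (obf 𝔇 F a₁.2) ψ ≤ ev (𝔇.nu μ) (S.w β) W (obf 𝔇 F a₁.2) ψ' +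
      (Finset.Icc a₁ b₁).card * ENNReal.ofReal (C * Real.exp (-(m * R))) := by
  refine infl_dec hI S hS.sub (by rw [hS.L]; exact hW) (by rw [hS.L]; exact h) (fun X hX y hy hyW => ?_)
    (obf_meas 𝔇 hF a₁.2) (obf_le 𝔇 hF a₁.2) (obf_dep 𝔇 hF) ψ ψ'
  rw [hS.L] at hy
  rw [hS.d]
  exact hd X hX y hy hyW

end SysFor

lemma HA_inn {S S' : Sys Pl Pl 𝔇.KK Y V (𝔇.nu μ) c} {a' b' : Pl} (hS : SysFor S δ r β a b)
    (hS' : SysFor S' δ r β a' b') (h : Finset.Icc a b ⊆ Finset.Icc a' b') (φ : Pl → 𝔇.KK) :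
    S.HA (inn a b) φ = S'.HA (inn a b) φ := by
  unfold Sys.HA
  have e1 : tch S.T S.sp (inn a b) = tch S'.T S'.sp (inn a b) := by
    rw [hS.T, hS.sp, hS'.T, hS'.sp]
    ext t
    rw [touch_iff, touch_iff' h]
  rw [e1]
  refine Finset.sum_congr rfl fun t ht => ?_
  rw [hS'.T, hS'.sp, touch_iff' h] at ht
  obtain ⟨j, hj⟩ := ht
  rw [hS.h, hS'.h]
  unfold Dat.hT
  have e2 : Dat.flg (Finset.Icc a b) t = Dat.flg (Finset.Icc a' b') t := by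
    ext j'
    rw [mem_flg, mem_flg]
    exact ⟨fun _ => h (corner_mem hj j'), fun _ => corner_mem hj j'⟩
  rw [e2]

end fin

section const

omit [μ.IsMulLeftInvariant] [μ.IsMulRightInvariant] [BorelSpace (SU N)] [NeZero N] in
/-- empty rectangles -/
lemma expect_empty (z : ℂ) (β : ℝ) {F : (Pl → Fib N l) → ℝ} {k : ℝ} (hF : ∀ U, F U = k)
    (h : ¬ a ≤ b) : expect μ z β (Finset.Icc a b) F = k := by
  have hE : Finset.Icc a b = ∅ := Finset.Icc_eq_empty h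
  have h0 : ∀ U : Pl → Fib N l, action z (Finset.Icc a b) U = 0 := fun U => by
    rw [hE]; unfold action; simp
  have : IsProbabilityMeasure (muL (N := N) (l := l) μ (Finset.Icc a b)) := by
    unfold muL; infer_instance
  unfold expect
  simp only [hF, h0, mul_zero, neg_zero, Real.exp_zero, mul_one, integral_const, probReal_univ,
    smul_eq_mul, one_mul, div_one]

lemma Obs.const_of_empty {F : (Pl → Fib N l) → ℝ} (hF : Obs F a₁ b₁)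
    (h : Finset.Icc a₁ b₁ = ∅) (U : Pl → Fib N l) : F U = F 1 :=
  hF.dep _ _ fun X p hX _ => by rw [h] at hX; exact absurd hX (Finset.notMem_empty X)

lemma expect_const {δ r β : ℝ} (hδ : 0 < δ) (hδ₀ : δ ≤ 𝔇.δ₀) (hr : 0 < r) (hr₀ : 16 * r ≤ 𝔇.c₀)
    (hβ : 0 < β) {w : (Pl → 𝔇.KK) → ℝ≥0∞} (hw : Good (𝔇.nu μ) w)
    (hwe : ∀ g, w g = ENNReal.ofReal (Real.exp (-(β * 𝔇.Hh μ δ r β (Finset.Icc a b) g))))
    {F : (Pl → Fib N l) → ℝ} {k : ℝ} (hF : ∀ U, F U = k) :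
    expect μ 𝔇.z β (Finset.Icc a b) F = k := by
  have hb : ∀ U : Pl → Fib N l, |(fun _ => (0 : ℝ)) U| ≤ 0 := fun U => by simp
  have e1 : F = fun U : Pl → Fib N l => 0 * (fun _ => (0 : ℝ)) U + 0 * (fun _ => (0 : ℝ)) U +
      0 * (fun _ => (0 : ℝ)) U + k := by
    funext U; rw [hF]; simp
  have e2 := expect_lin hδ hδ₀ hr hr₀ hβ hw hwe (F := fun _ => 0) (G := fun _ => 0)
    (H := fun _ => 0) measurable_const measurable_const measurable_const hb hb hb 0 0 0 k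
  rw [← e1] at e2
  rw [e2]
  ring

end const

/-- The finite volume theorem from the machine. -/
theorem finite_volume {δ r : ℝ} (hδ : 0 < δ) (hδ₀ : δ ≤ 𝔇.δ₀) (hr : 0 < r) (hr₀ : 16 * r ≤ 𝔇.c₀)
    {Y V : Type} [NormedAddCommGroup Y] [NormedSpace ℝ Y] [NormedAddCommGroup V] [NormedSpace ℝ V]
    {c : Cst} {β m C : ℝ} (hβ : 1 ≤ β) (hm : 0 ≤ m) (hC : 0 ≤ C)
    (hS : ∀ a b : Pl, a ≤ b → ∃ S : Sys Pl Pl 𝔇.KK Y V (𝔇.nu μ) c, S.Lam = Finset.Icc a b ∧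
      S.d = dP ∧ S.T = Dat.TT a b ∧ S.sp = Dat.spt (Finset.Icc a b) ∧
      ∀ t g, S.h t g = 𝔇.hT μ δ r β (Finset.Icc a b) t g)
    (hI : Infl Y V (𝔇.nu μ) c β m C) :
    (∀ (a b a₁ b₁ a₂ b₂ : Pl) (F₁ F₂ : (Pl → Fib N l) → ℝ) (R : ℕ), Obs F₁ a₁ b₁ → Obs F₂ a₂ b₂ →
      Finset.Icc a₁ b₁ ⊆ Finset.Icc a b → Finset.Icc a₂ b₂ ⊆ Finset.Icc a b →
      (∀ X ∈ Finset.Icc a₁ b₁, ∀ Y ∈ Finset.Icc a₂ b₂, R < dP X Y) →
      |expect μ 𝔇.z β (Finset.Icc a b) (fun U => F₁ U * F₂ U) -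
        expect μ 𝔇.z β (Finset.Icc a b) F₁ * expect μ 𝔇.z β (Finset.Icc a b) F₂| ≤
        8 * (C + 1) * (Finset.Icc a₁ b₁).card * Real.exp (-(m * R))) ∧
    (∀ (a b a' b' a₁ b₁ : Pl) (F : (Pl → Fib N l) → ℝ) (R : ℕ), Obs F a₁ b₁ →
      Finset.Icc a₁ b₁ ⊆ Finset.Icc a b → Finset.Icc a b ⊆ Finset.Icc a' b' →
      (∀ X ∈ Finset.Icc a₁ b₁, ∀ Y ∉ Finset.Icc a b, R < dP X Y) →
      |expect μ 𝔇.z β (Finset.Icc a' b') F - expect μ 𝔇.z β (Finset.Icc a b) F| ≤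
        8 * (C + 1) * (Finset.Icc a₁ b₁).card * Real.exp (-(m * ((R : ℝ) - 2)))) := by
  have hβ0 : 0 < β := by linarith
  have : IsProbabilityMeasure (𝔇.nu μ) := RA.nu_prob μ 𝔇
  have hS2 : ∀ a b : Pl, a ≤ b → ∃ S : Sys Pl Pl 𝔇.KK Y V (𝔇.nu μ) c, SysFor S δ r β a b := by
    intro a b hab
    obtain ⟨S, h1, h2, h3, h4, h5⟩ := hS a b hab
    exact ⟨S, h1, h2, h3, h4, h5⟩
  have hK : ∀ (a b : Pl) {F : (Pl → Fib N l) → ℝ} {k : ℝ}, (∀ U, F U = k) →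
      expect μ 𝔇.z β (Finset.Icc a b) F = k := by
    intro a b F k hF
    by_cases hab : a ≤ b
    · obtain ⟨S, hS⟩ := hS2 a b hab
      exact expect_const 𝔇 μ hδ hδ₀ hr hr₀ hβ0 (good_dec S β) hS.w_eq hF
    · exact expect_empty μ 𝔇.z β hF hab
  have hη : ∀ (k : ℕ) (e : ℝ), 0 ≤ e → (k : ℝ≥0∞) * ENNReal.ofReal e = ENNReal.ofReal (k * e) := by
    intro k e he
    rw [ENNReal.ofReal_mul (Nat.cast_nonneg _), ENNReal.ofReal_natCast]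
  constructor
  · intro a b a₁ b₁ a₂ b₂ F₁ F₂ R hF₁ hF₂ h₁ h₂ hd
    by_cases hab : a ≤ b
    swap
    · have hE : Finset.Icc a b = ∅ := Finset.Icc_eq_empty hab
      have k₁ := hF₁.const_of_empty (Finset.subset_empty.1 (hE ▸ h₁))
      have k₂ := hF₂.const_of_empty (Finset.subset_empty.1 (hE ▸ h₂))
      rw [hK a b k₁, hK a b k₂, hK a b (F := fun U => F₁ U * F₂ U) (k := F₁ 1 * F₂ 1)
        (fun U => by rw [k₁ U, k₂ U]), sub_self, abs_zero]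
      positivity
    obtain ⟨S, hS⟩ := hS2 a b hab
    have he : 0 ≤ ((Finset.Icc a₁ b₁).card : ℝ) * (C * Real.exp (-(m * R))) := by positivity
    have key := obs_cluster (𝔇 := 𝔇) (μ := μ) hδ hδ₀ hr hr₀ hβ0 (good_dec S β) hS.w_eq hβ hF₁ hF₂
      h₁ h₂ he (fun ψ ψ' => by
        have := hS.infl hI hF₁ h₁ (W := Finset.Icc a b \ Finset.Icc a₂ b₂) Finset.sdiff_subset
          (R := R) (fun X hX y hy hyW => hd X hX y (by
            by_contra h9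
            exact hyW (Finset.mem_sdiff.2 ⟨hy, h9⟩))) ψ ψ'
        rwa [hη _ _ (by positivity)] at this)
    refine key.trans ?_
    have h3 : 0 ≤ ((Finset.Icc a₁ b₁).card : ℝ) * Real.exp (-(m * R)) := by positivity
    nlinarith
  · intro a b a' b' a₁ b₁ F R hF h₁ h₂ hd
    rcases (Finset.Icc a₁ b₁).eq_empty_or_nonempty with hE | hE
    · rw [hK a b (hF.const_of_empty hE), hK a' b' (hF.const_of_empty hE), sub_self, abs_zero]
      positivity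
    obtain ⟨X₀, hX₀⟩ := hE
    have hab : a ≤ b := (Finset.mem_Icc.1 (h₁ hX₀)).1.trans (Finset.mem_Icc.1 (h₁ hX₀)).2
    have hab' : a' ≤ b' := (Finset.mem_Icc.1 (h₂ (h₁ hX₀))).1.trans
      (Finset.mem_Icc.1 (h₂ (h₁ hX₀))).2
    obtain ⟨S, hS⟩ := hS2 a b hab
    obtain ⟨S', hS'⟩ := hS2 a' b' hab'
    have hw := good_dec S β
    have hw' := good_dec S' β
    rw [obs_expect hδ hδ₀ hr hr₀ hβ0 hw hS.w_eq hF h₁,
      obs_expect hδ hδ₀ hr hr₀ hβ0 hw' hS'.w_eq hF (h₁.trans h₂)]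
    obtain ⟨p, hp⟩ : ∃ p, p = ev (𝔇.nu μ) (S.w β) (Finset.Icc a b) (obf 𝔇 F a₁.2) 1 := ⟨_, rfl⟩
    obtain ⟨p', hp'⟩ : ∃ p, p = ev (𝔇.nu μ) (S'.w β) (Finset.Icc a' b') (obf 𝔇 F a₁.2) 1 :=
      ⟨_, rfl⟩
    have l1 : p ≤ 1 := by rw [hp]; exact ev_le_one hw (obf_le 𝔇 hF _)
    have l2 : p' ≤ 1 := by rw [hp']; exact ev_le_one hw' (obf_le 𝔇 hF _)
    have t1 : p ≠ ∞ := ne_top_of_le_ne_top ENNReal.one_ne_top l1
    have t2 : p' ≠ ∞ := ne_top_of_le_ne_top ENNReal.one_ne_top l2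
    have m1 : p.toReal ≤ 1 := by
      have := ENNReal.toReal_mono ENNReal.one_ne_top l1
      rwa [ENNReal.toReal_one] at this
    have m2 : p'.toReal ≤ 1 := by
      have := ENNReal.toReal_mono ENNReal.one_ne_top l2
      rwa [ENNReal.toReal_one] at this
    have m3 : 0 ≤ p.toReal := ENNReal.toReal_nonneg
    have m4 : 0 ≤ p'.toReal := ENNReal.toReal_nonneg
    rw [← hp, ← hp']
    have hcard : (1 : ℝ) ≤ (Finset.Icc a₁ b₁).card := by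
      exact_mod_cast Finset.card_pos.2 ⟨X₀, hX₀⟩
    rcases Nat.eq_zero_or_pos R with hR | hR
    · subst hR
      have h3 : 1 ≤ Real.exp (-(m * (((0 : ℕ) : ℝ) - 2))) := by
        refine Real.one_le_exp ?_
        push_cast
        nlinarith
      have h4 : (2 : ℝ) ≤ 8 * (C + 1) * (Finset.Icc a₁ b₁).card *
          Real.exp (-(m * (((0 : ℕ) : ℝ) - 2))) := by
        have h5 : 2 ≤ 8 * (C + 1) := by linarith
        have h6 : 2 * 1 ≤ 8 * (C + 1) * ((Finset.Icc a₁ b₁).card : ℝ) :=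
          mul_le_mul h5 hcard zero_le_one (by linarith)
        have h7 : 2 * 1 * 1 ≤ 8 * (C + 1) * ((Finset.Icc a₁ b₁).card : ℝ) *
            Real.exp (-(m * (((0 : ℕ) : ℝ) - 2))) :=
          mul_le_mul h6 h3 zero_le_one (by positivity)
        linarith
      refine le_trans ?_ h4
      rw [abs_le]
      constructor <;> linarith
    · obtain ⟨Q, rfl⟩ : ∃ Q, R = Q + 1 := ⟨R - 1, by omega⟩
      have ho := hS.infl hI hF h₁ (W := inn a b) inn_sub (R := Q) (fun X hX y hy hyW => by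
        have := dist_inn (hd X hX) hy hyW
        omega)
      rw [hη _ _ (by positivity)] at ho
      have hsame := same_dec S S' β (HA_inn hS hS' h₂) (obf_meas 𝔇 hF a₁.2)
      obtain ⟨h, hh⟩ : ∃ h, h = ev (𝔇.nu μ) (S.w β) (inn a b) (obf 𝔇 F a₁.2) := ⟨_, rfl⟩
      have hmh : Measurable h := by
        rw [hh]; exact Pool.Agent.N986.PB.ev_meas hw (obf_meas 𝔇 hF a₁.2)
      have e1 : p = ev (𝔇.nu μ) (S.w β) (Finset.Icc a b) h 1 := by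
        rw [hp, hh, ev_ev hw inn_sub (obf_meas 𝔇 hF a₁.2)]
      have e2 : p' = ev (𝔇.nu μ) (S'.w β) (Finset.Icc a' b') h 1 := by
        rw [hp', hh, hsame, ev_ev hw' (inn_sub.trans h₂) (obf_meas 𝔇 hF a₁.2)]
      rw [← hh] at ho
      have c1 := ev_osc (V := Finset.Icc a b) (V' := Finset.Icc a' b') hw hw' hmh ho 1 1
      have c2 := ev_osc (V := Finset.Icc a' b') (V' := Finset.Icc a b) hw' hw hmh ho 1 1
      rw [← e1, ← e2] at c1 c2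
      have he : 0 ≤ ((Finset.Icc a₁ b₁).card : ℝ) * (C * Real.exp (-(m * Q))) := by positivity
      have d1 : p.toReal ≤ p'.toReal + (Finset.Icc a₁ b₁).card * (C * Real.exp (-(m * Q))) := by
        have := ENNReal.toReal_mono (ENNReal.add_ne_top.2 ⟨t2, ENNReal.ofReal_ne_top⟩) c1
        rwa [ENNReal.toReal_add t2 ENNReal.ofReal_ne_top, ENNReal.toReal_ofReal he] at this
      have d2 : p'.toReal ≤ p.toReal + (Finset.Icc a₁ b₁).card * (C * Real.exp (-(m * Q))) := by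
        have := ENNReal.toReal_mono (ENNReal.add_ne_top.2 ⟨t1, ENNReal.ofReal_ne_top⟩) c2
        rwa [ENNReal.toReal_add t1 ENNReal.ofReal_ne_top, ENNReal.toReal_ofReal he] at this
      have h5 : Real.exp (-(m * Q)) ≤ Real.exp (-(m * (((Q + 1 : ℕ) : ℝ) - 2))) := by
        refine Real.exp_le_exp.2 ?_
        push_cast
        nlinarith
      have h6 : ((Finset.Icc a₁ b₁).card : ℝ) * (C * Real.exp (-(m * Q))) ≤
          (C + 1) * (Finset.Icc a₁ b₁).card * Real.exp (-(m * (((Q + 1 : ℕ) : ℝ) - 2))) := by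
        calc ((Finset.Icc a₁ b₁).card : ℝ) * (C * Real.exp (-(m * Q)))
            = C * (Finset.Icc a₁ b₁).card * Real.exp (-(m * Q)) := by ring
          _ ≤ (C + 1) * (Finset.Icc a₁ b₁).card * Real.exp (-(m * (((Q + 1 : ℕ) : ℝ) - 2))) := by
              gcongr
              linarith
      have h7 : 0 ≤ (C + 1) * ((Finset.Icc a₁ b₁).card : ℝ) *
          Real.exp (-(m * (((Q + 1 : ℕ) : ℝ) - 2))) := by positivity
      rw [abs_le]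
      constructor <;> nlinarith

end

end Pool.Agent.N984.TW
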