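import Mathlib
import Pool.Agent.N984.TW.Ens
import Pool.Agent.N838.TW.Spec4

/-!
# Existence of the data
-/

open MeasureTheory Matrix Filter
open Pool.Agent.H906R3.YM Pool.Agent.W793.YM Pool.Agent.TH618.YM

namespace Pool.Agent.N984.TW

noncomputable section

/-- The data of the gauge fixing exist for every primitive twist, with the orthogonal slice and any
strength of the gauge fixing. -/
theorem exists_dat_orth {N l : ℕ} [NeZero N] [NeZero l] {z : ℂ} (hz : IsPrimitiveRoot z N)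
    {κ : ℝ} (hκ : 0 < κ) :
    ∃ (n : ℕ) (W : TwP N z) (𝔇 : Dat N l n), 𝔇.z = z ∧ 𝔇.κ = κ ∧ 𝔇.φ₀ = vac l W ∧
      (∀ om, 𝔇.P (Jl 𝔇.B sE tE 𝔇.φ₀ om) = om) ∧
      (∀ om, M2 N l * sq om ≤ sq (Jl 𝔇.B sE tE 𝔇.φ₀ om)) ∧
      (∀ al, 𝔇.P al = 0 → M2 N l * sq al ≤ sq (J1c 𝔇.B 𝔇.φ₀ al)) ∧
      (∀ al, 𝔇.P al = 0 → ∀ om, ∑ e, ∑ a, Jl 𝔇.B sE tE 𝔇.φ₀ om e a * al e a = 0) ∧
      (∀ om, J1c 𝔇.B 𝔇.φ₀ (Jl 𝔇.B sE tE 𝔇.φ₀ om) = 0) ∧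
      (∀ al, 𝔇.P al = 0 ↔ Jst 𝔇.B 𝔇.φ₀ al = 0) ∧
      (∀ al, Lap 𝔇.B 𝔇.φ₀ (𝔇.P al) = Jst 𝔇.B 𝔇.φ₀ al) := by
  obtain ⟨W⟩ := exists_TwP hz
  obtain ⟨n, ⟨B⟩⟩ := exists_frame (SU_closed N)
  obtain ⟨P, hP, q1, q2, q3, q4, q5, q6, q7⟩ := orth_facts (l := l) hz W B (SU_closed N)
  obtain ⟨δ₀, c₀, D, fin, cen, Vc, V0, Vi, Vz, Vl, Vu⟩ :=
    v_facts_W (l := l) hz W B (SU_closed N) P hP
  exact ⟨n, W, { z := z, B := B, hG := SU_closed N, φ₀ := vac l W, P := P, Zc := ZcS N l,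
                 δ₀ := δ₀, c₀ := c₀, κ := κ, hκ := hκ, D := D, fin := fin, cen := cen, Vc := Vc,
                 V0 := V0, Vi := Vi, Vz := Vz, Vl := Vl, Vu := Vu },
    rfl, rfl, rfl, q1, q2, q3, q4, q5, q6, q7⟩

/-- The data of the gauge fixing exist for every primitive twist. -/
theorem exists_dat {N l : ℕ} [NeZero N] [NeZero l] {z : ℂ} (hz : IsPrimitiveRoot z N)
    {κ : ℝ} (hκ : 0 < κ) : ∃ (n : ℕ) (𝔇 : Dat N l n), 𝔇.z = z ∧ 𝔇.κ = κ := by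
  obtain ⟨n, W, 𝔇, h1, h2, -⟩ := exists_dat_orth (l := l) hz hκ
  exact ⟨n, 𝔇, h1, h2⟩

end

end Pool.Agent.N984.TW
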