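import Mathlib
import Pool.Agent.N726.TW.Fin

/-!
# The infinite volume limit
-/

open MeasureTheory Matrix Filter
open scoped Matrix.Norms.Frobenius Topology ENNReal

namespace Pool.Agent.N984.TW

set_option linter.unusedSectionVars false
set_option linter.unusedVariables false

noncomputable section

variable {N l : ℕ} [NeZero N] [NeZero l]
variable [MeasurableSpace (SU N)] [BorelSpace (SU N)] (μ : Measure (SU N))

/-- the square boxes -/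
def sqB (n : ℕ) : Finset Pl := Finset.Icc (-(n : ℤ), -(n : ℤ)) ((n : ℤ), (n : ℤ))

lemma mem_sqB {n : ℕ} {X : Pl} : X ∈ sqB n ↔ X.1.natAbs ≤ n ∧ X.2.natAbs ≤ n := by
  unfold sqB
  rw [mem_box]
  show -(n : ℤ) ≤ X.1 ∧ -(n : ℤ) ≤ X.2 ∧ X.1 ≤ n ∧ X.2 ≤ n ↔ _
  omega

/-- the size of a rectangle -/
def szb (a b : Pl) : ℕ := max (max a.1.natAbs a.2.natAbs) (max b.1.natAbs b.2.natAbs)

lemma abs_le_szb {a b X : Pl} (h : X ∈ Finset.Icc a b) :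
    X.1.natAbs ≤ szb a b ∧ X.2.natAbs ≤ szb a b := by
  rw [mem_box] at h
  unfold szb
  omega

lemma box_sub_sqB {a b : Pl} {n : ℕ} (h : szb a b ≤ n) : Finset.Icc a b ⊆ sqB n := by
  intro X hX
  have := abs_le_szb hX
  rw [mem_sqB]
  omega

lemma dist_sqB {a b X Y : Pl} {n R : ℕ} (h : szb a b + R ≤ n) (hX : X ∈ Finset.Icc a b)
    (hY : Y ∉ sqB n) : R < dP X Y := by
  have h1 := abs_le_szb hX
  rw [mem_sqB] at hY
  unfold dP
  omega

lemma Obs.mul {F₁ F₂ : (Pl → Fib N l) → ℝ} {a₁ b₁ a₂ b₂ : Pl} (h₁ : Obs F₁ a₁ b₁)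
    (h₂ : Obs F₂ a₂ b₂) : Obs (fun U => F₁ U * F₂ U) (a₁ ⊓ a₂) (b₁ ⊔ b₂) where
  meas := h₁.meas.mul h₂.meas
  bdd U := by
    rw [abs_mul]
    exact mul_le_one₀ (h₁.bdd U) (abs_nonneg _) (h₂.bdd U)
  inv h U := by
    show F₁ _ * F₂ _ = _
    rw [h₁.inv h U, h₂.inv h U]
  dep U U' h := by
    show F₁ _ * F₂ _ = _
    rw [h₁.dep U U' fun X p hX hX' => h X p
        (Finset.Icc_subset_Icc inf_le_left le_sup_left hX)
        (Finset.Icc_subset_Icc inf_le_left le_sup_left hX'),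
      h₂.dep U U' fun X p hX hX' => h X p
        (Finset.Icc_subset_Icc inf_le_right le_sup_right hX)
        (Finset.Icc_subset_Icc inf_le_right le_sup_right hX')]

/-- the infinite volume state -/
def omg (z : ℂ) (β : ℝ) (F : (Pl → Fib N l) → ℝ) : ℝ :=
  limUnder atTop fun n : ℕ => expect μ z β (sqB n) F

variable {μ}

lemma omg_spec {z : ℂ} {β m C : ℝ} (hm : 0 < m) (hC : 0 ≤ C)
    (h2 : ∀ (a b a' b' a₁ b₁ : Pl) (F : (Pl → Fib N l) → ℝ) (R : ℕ), Obs F a₁ b₁ →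
      Finset.Icc a₁ b₁ ⊆ Finset.Icc a b → Finset.Icc a b ⊆ Finset.Icc a' b' →
      (∀ X ∈ Finset.Icc a₁ b₁, ∀ Y ∉ Finset.Icc a b, R < dP X Y) →
      |expect μ z β (Finset.Icc a' b') F - expect μ z β (Finset.Icc a b) F| ≤
        C * (Finset.Icc a₁ b₁).card * Real.exp (-(m * R)))
    {F : (Pl → Fib N l) → ℝ} {a₁ b₁ : Pl} (hF : Obs F a₁ b₁) :
    Tendsto (fun n : ℕ => expect μ z β (sqB n) F) atTop (𝓝 (omg μ z β F)) := by
  obtain ⟨M, hM⟩ : ∃ M, M = szb a₁ b₁ := ⟨_, rfl⟩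
  have hc : CauchySeq fun n : ℕ => expect μ z β (sqB (n + M)) F := by
    refine cauchySeq_of_le_tendsto_0'
      (fun n : ℕ => C * (Finset.Icc a₁ b₁).card * Real.exp (-(m * n))) ?_ ?_
    · intro n k hnk
      rw [dist_comm, Real.dist_eq]
      refine h2 _ _ _ _ a₁ b₁ F n hF (box_sub_sqB (by omega)) ?_ fun X hX Y hY =>
        dist_sqB (n := n + M) (by omega) hX hY
      intro X hX
      have h3 := (mem_sqB (n := n + M)).1 hX
      exact (mem_sqB (n := k + M)).2 ⟨by omega, by omega⟩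
    · have h3 : Tendsto (fun n : ℕ => Real.exp (-(m * n))) atTop (𝓝 0) := by
        refine Real.tendsto_exp_neg_atTop_nhds_zero.comp ?_
        exact tendsto_natCast_atTop_atTop.const_mul_atTop hm
      have h4 := h3.const_mul (C * ((Finset.Icc a₁ b₁).card : ℝ))
      rwa [mul_zero] at h4
  obtain ⟨L, hL⟩ := cauchySeq_tendsto_of_complete hc
  rw [tendsto_add_atTop_iff_nat (f := fun n : ℕ => expect μ z β (sqB n) F)] at hL
  unfold omg
  rw [hL.limUnder_eq]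
  exact hL

/-- The infinite volume limit. -/
theorem infinite_volume {z : ℂ} {β m C : ℝ} (hm : 0 < m) (hC : 0 ≤ C)
    (h1 : ∀ (a b a₁ b₁ a₂ b₂ : Pl) (F₁ F₂ : (Pl → Fib N l) → ℝ) (R : ℕ), Obs F₁ a₁ b₁ →
      Obs F₂ a₂ b₂ → Finset.Icc a₁ b₁ ⊆ Finset.Icc a b → Finset.Icc a₂ b₂ ⊆ Finset.Icc a b →
      (∀ X ∈ Finset.Icc a₁ b₁, ∀ Y ∈ Finset.Icc a₂ b₂, R < dP X Y) →
      |expect μ z β (Finset.Icc a b) (fun U => F₁ U * F₂ U) -
        expect μ z β (Finset.Icc a b) F₁ * expect μ z β (Finset.Icc a b) F₂| ≤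
        C * (Finset.Icc a₁ b₁).card * Real.exp (-(m * R)))
    (h2 : ∀ (a b a' b' a₁ b₁ : Pl) (F : (Pl → Fib N l) → ℝ) (R : ℕ), Obs F a₁ b₁ →
      Finset.Icc a₁ b₁ ⊆ Finset.Icc a b → Finset.Icc a b ⊆ Finset.Icc a' b' →
      (∀ X ∈ Finset.Icc a₁ b₁, ∀ Y ∉ Finset.Icc a b, R < dP X Y) →
      |expect μ z β (Finset.Icc a' b') F - expect μ z β (Finset.Icc a b) F| ≤
        C * (Finset.Icc a₁ b₁).card * Real.exp (-(m * R))) :
    ∃ ω : ((Pl → Fib N l) → ℝ) → ℝ,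
      (∀ (a b a₁ b₁ : Pl) (F : (Pl → Fib N l) → ℝ) (R : ℕ), Obs F a₁ b₁ →
        Finset.Icc a₁ b₁ ⊆ Finset.Icc a b →
        (∀ X ∈ Finset.Icc a₁ b₁, ∀ Y ∉ Finset.Icc a b, R < dP X Y) →
        |expect μ z β (Finset.Icc a b) F - ω F| ≤
          C * (Finset.Icc a₁ b₁).card * Real.exp (-(m * R))) ∧
      (∀ (a₁ b₁ a₂ b₂ : Pl) (F₁ F₂ : (Pl → Fib N l) → ℝ) (R : ℕ), Obs F₁ a₁ b₁ →
        Obs F₂ a₂ b₂ → (∀ X ∈ Finset.Icc a₁ b₁, ∀ Y ∈ Finset.Icc a₂ b₂, R < dP X Y) →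
        |ω (fun U => F₁ U * F₂ U) - ω F₁ * ω F₂| ≤
          C * (Finset.Icc a₁ b₁).card * Real.exp (-(m * R))) := by
  refine ⟨omg μ z β, ?_, ?_⟩
  · intro a b a₁ b₁ F R hF h hd
    have hT := omg_spec hm hC h2 hF
    have hT2 : Tendsto (fun n : ℕ => |expect μ z β (Finset.Icc a b) F - expect μ z β (sqB n) F|)
        atTop (𝓝 |expect μ z β (Finset.Icc a b) F - omg μ z β F|) :=
      (tendsto_const_nhds.sub hT).abs
    refine le_of_tendsto hT2 (eventually_atTop.2 ⟨szb a b, fun n hn => ?_⟩)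
    rw [abs_sub_comm]
    exact h2 a b _ _ a₁ b₁ F R hF h (box_sub_sqB hn) hd
  · intro a₁ b₁ a₂ b₂ F₁ F₂ R hF₁ hF₂ hd
    have hT1 := omg_spec hm hC h2 hF₁
    have hT2 := omg_spec hm hC h2 hF₂
    have hT3 := omg_spec hm hC h2 (hF₁.mul hF₂)
    refine le_of_tendsto ((hT3.sub (hT1.mul hT2)).abs)
      (eventually_atTop.2 ⟨max (szb a₁ b₁) (szb a₂ b₂), fun n hn => ?_⟩)
    exact h1 _ _ a₁ b₁ a₂ b₂ F₁ F₂ R hF₁ hF₂ (box_sub_sqB ((le_max_left _ _).trans hn))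
      (box_sub_sqB ((le_max_right _ _).trans hn)) hd

end

end Pool.Agent.N984.TW
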