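import Mathlib
import Pool.Agent.N984.TW.FinalB

/-!
# Twisted Yang–Mills theory: the infinite volume limit for observables of any norm
-/

open MeasureTheory Matrix Filter Complex
open scoped Topology ENNReal ComplexConjugate

namespace Pool.Agent.N726.TW

set_option linter.unusedSectionVars false
set_option linter.unusedVariables false

noncomputable section

variable {N l : ℕ} [NeZero N] [NeZero l]

open Pool.Agent.N984.TW Pool.Agent.N984.TW.RP Pool.Agent.N984.TW.OSI Pool.Agent.N984.TW.CX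

variable [MeasurableSpace (SU N)] [BorelSpace (SU N)]

section

variable (μ : Measure (SU N))
  [IsProbabilityMeasure μ] [μ.IsMulLeftInvariant] [μ.IsMulRightInvariant]

variable {z : ℂ} {β m C : ℝ} {ω : ((Pl → Fib N l) → ℝ) → ℝ}

lemma stC_rate_M (hm : 0 < m) (hC : 0 ≤ C)
    (h1 : ∀ (a b a₁ b₁ : Pl) (F : (Pl → Fib N l) → ℝ) (R : ℕ), Obs F a₁ b₁ →
        Finset.Icc a₁ b₁ ⊆ Finset.Icc a b →
        (∀ X ∈ Finset.Icc a₁ b₁, ∀ Y ∉ Finset.Icc a b, R < dP X Y) →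
        |expect μ z β (Finset.Icc a b) F - ω F| ≤
          C * (Finset.Icc a₁ b₁).card * Real.exp (-(m * R)))
    {F : (Pl → Fib N l) → ℂ} {a₁ b₁ : Pl} (hF : CObs F a₁ b₁) {M : ℝ} (hM : 0 < M)
    (hb : ∀ U, ‖F U‖ ≤ M) (a b : Pl) (R : ℕ) (hs : Finset.Icc a₁ b₁ ⊆ Finset.Icc a b)
    (hR : ∀ X ∈ Finset.Icc a₁ b₁, ∀ Y ∉ Finset.Icc a b, R < dP X Y) :
    ‖expectC μ z β (Finset.Icc a b) F - stC μ z β F‖ ≤
      2 * C * M * (Finset.Icc a₁ b₁).card * Real.exp (-(m * R)) := by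
  rw [expectC_eq μ z β _ hF]
  have r1 := st_rate μ hm hC h1 (CObs.re hF) hM
    (fun U => (abs_re_le_norm _).trans (hb U)) a b R hs hR
  have r2 := st_rate μ hm hC h1 (CObs.im hF) hM
    (fun U => (abs_im_le_norm _).trans (hb U)) a b R hs hR
  unfold stC
  have e : ((expect μ z β (Finset.Icc a b) fun U => (F U).re : ℂ) +
      (expect μ z β (Finset.Icc a b) fun U => (F U).im : ℂ) * I) -
      ((st μ z β fun U => (F U).re : ℂ) + (st μ z β fun U => (F U).im : ℂ) * I) =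
      ((expect μ z β (Finset.Icc a b) (fun U => (F U).re) - st μ z β fun U => (F U).re : ℝ) : ℂ) +
      ((expect μ z β (Finset.Icc a b) (fun U => (F U).im) - st μ z β fun U => (F U).im : ℝ) : ℂ) *
        I := by
    push_cast
    ring
  rw [e]
  refine (norm_add_le _ _).trans ?_
  rw [norm_mul, norm_I, mul_one, Complex.norm_real, Complex.norm_real, Real.norm_eq_abs,
    Real.norm_eq_abs]
  linarith

end

/-- `twisted` with the limit for observables of any norm. -/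
theorem twistedM (hN : 2 ≤ N) {z : ℂ} (hz : IsPrimitiveRoot z N) (μ : Measure (SU N))
    [IsProbabilityMeasure μ] [μ.IsMulLeftInvariant] [μ.IsMulRightInvariant] {m₀ : ℝ} (hm₀ : 0 < m₀)
    (h : Real.cosh m₀ = 1 + 2 * Real.sin (Real.pi / (N * l)) ^ 2) {ε : ℝ} (hε : 0 < ε)
    (hε' : ε < m₀)
    (hup : ∃ (R : ℤ) (F : (Pl → Fib N l) → ℝ), Obs F (0, -R) (0, R) ∧ (∀ U, F (refl U) = F U) ∧
      ∃ κ > (0 : ℝ), ∃ β₀ ≥ (1 : ℝ), ∀ β ≥ β₀, ∀ (C : ℝ) (ω : ((Pl → Fib N l) → ℝ) → ℝ),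
      0 ≤ C → (∀ (a b a₁ b₁ : Pl) (F : (Pl → Fib N l) → ℝ) (R : ℕ), Obs F a₁ b₁ →
        Finset.Icc a₁ b₁ ⊆ Finset.Icc a b →
        (∀ X ∈ Finset.Icc a₁ b₁, ∀ Y ∉ Finset.Icc a b, R < dP X Y) →
        |expect μ z β (Finset.Icc a b) F - ω F| ≤
          C * (Finset.Icc a₁ b₁).card * Real.exp (-((m₀ - ε) * R))) →
      κ / β ≤ ω (fun U => F U * F U) - ω F ^ 2 ∧
      Real.exp (-(2 * (m₀ + ε))) * (ω (fun U => F U * F U) - ω F ^ 2) ≤
        ω (fun U => F U * F (shift (2, 0) U)) - ω F * ω (fun U => F (shift (2, 0) U))) :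
    ∃ β₀ : ℝ, ∀ β ≥ β₀, ∃ (ω : ((Pl → Fib N l) → ℂ) → ℂ) (C : ℝ), 0 ≤ C ∧
      (∀ (F : (Pl → Fib N l) → ℂ) (a b : Pl), CObs F a b → ∀ M > (0 : ℝ), (∀ U, ‖F U‖ ≤ M) →
        ∀ (c d : Pl) (R : ℕ), Finset.Icc a b ⊆ Finset.Icc c d →
        (∀ X ∈ Finset.Icc a b, ∀ Y ∉ Finset.Icc c d, R < dP X Y) →
        ‖expectC μ z β (Finset.Icc c d) F - ω F‖ ≤
          C * M * (Finset.Icc a b).card * Real.exp (-((m₀ - ε) * R))) ∧
      (∀ (F F' : (Pl → Fib N l) → ℂ) (a b a' b' : Pl), CObs F a b → CObs F' a' b' →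
        (∀ U, ‖F U‖ ≤ 1) → (∀ U, ‖F' U‖ ≤ 1) → ∀ R : ℕ,
        (∀ X ∈ Finset.Icc a b, ∀ Y ∈ Finset.Icc a' b', R < dP X Y) →
        ‖ω (fun U => F U * F' U) - ω F * ω F'‖ ≤
          C * (Finset.Icc a b).card * Real.exp (-((m₀ - ε) * R))) ∧
      (∀ (F : (Pl → Fib N l) → ℂ) (a b : Pl), CObs F a b →
        ω (fun U => F (refl U)) = ω F ∧ ∀ v : Pl, ω (fun U => F (shift v U)) = ω F) ∧
      (∃ (H : Type) (_ : NormedAddCommGroup H) (_ : InnerProductSpace ℂ H) (_ : CompleteSpace H)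
        (T : H →L[ℂ] H) (J : ((Pl → Fib N l) → ℂ) → H), Rec ω T J) ∧
      ∀ (H : Type) [NormedAddCommGroup H] [InnerProductSpace ℂ H] [CompleteSpace H]
        (T : H →L[ℂ] H) (J : ((Pl → Fib N l) → ℂ) → H), Rec ω T J →
        T.IsPositive ∧ ‖T‖ ≤ 1 ∧ ‖J fun _ => 1‖ = 1 ∧
        (∀ x, T x = x ↔ ∃ c : ℂ, x = c • J fun _ => 1) ∧ |massGap T - m₀| ≤ ε := by
  have hm : 0 < m₀ - ε := by linarith
  have hlt : 2 * Real.cosh (m₀ - ε) - 2 < M2 N l := by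
    rw [← M2_of_cosh h]
    have : Real.cosh (m₀ - ε) < Real.cosh m₀ := by
      rw [Real.cosh_lt_cosh, abs_of_pos hm, abs_of_pos hm₀]
      linarith
    linarith
  obtain ⟨b1, hb1, h1⟩ := sharp_state (l := l) hN hz μ hm hlt
  obtain ⟨R, F, hF, hFr, κ, hκ, b2, hb2, h2⟩ := hup
  refine ⟨max b1 b2, fun β hβ => ?_⟩
  have hβ1 : b1 ≤ β := (le_max_left _ _).trans hβ
  have hβ2 : b2 ≤ β := (le_max_right _ _).trans hβ
  have hβ0 : 0 < β := lt_of_lt_of_le (by linarith) hβ1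
  obtain ⟨C, hC, ω, w1, w2⟩ := h1 β hβ1
  have hW : ∀ (F : (Pl → Fib N l) → ℂ) (a b : Pl), CObs F a b → stC μ z β F = stC μ z β F :=
    fun _ _ _ _ => rfl
  refine ⟨stC μ z β, 4 * C, by positivity, ?_, ?_, ?_, exists_rec μ hm hC w1 w2 hW, ?_⟩
  · intro F a b hF M hM hb c d R hs hR
    refine (stC_rate_M μ hm hC w1 hF hM hb c d R hs hR).trans ?_
    have : 0 ≤ C * M * (Finset.Icc a b).card * Real.exp (-((m₀ - ε) * R)) := by positivity
    linarith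
  · intro F F' a b a' b' hF hF' hb hb' R hR
    exact stC_cluster μ hm hC w1 w2 hF hF' hb hb' R hR
  · intro F a b hF
    exact ⟨stC_refl μ hm hC w1 hF, fun v => stC_shift μ hm hC w1 hF v⟩
  · intro H _ _ _ T J hR
    obtain ⟨p1, p2, p3, p4, p5, p6, p7⟩ := rec_gap μ hm hC w1 w2 hW hR
    refine ⟨rec_pos μ hm hC w1 w2 hβ0.le hW hR, p2, p4, fun x => ⟨p7 x, ?_⟩, ?_⟩
    · rintro ⟨c, rfl⟩
      rw [map_smul, p3]
    obtain ⟨u1, u2⟩ := h2 β hβ2 C ω hC w1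
    have hs : ω (fun U => F (shift (2, 0) U)) = ω F := omega_shift μ hm hC w1 (2, 0) hF
    rw [hs, ← pow_two] at u2
    have h6 := massGap_bd p6 (M := m₀ + ε) (by
      have hff : Obs (fun U => F U * F U) (0, -R) (0, R) := Obs_mul hF hF
      have hfs : Obs (fun U => F U * F (shift (2, 0) U)) (((0, -R) : Pl) ⊓ ((0, -R) + (2, 0)))
          (((0, R) : Pl) ⊔ ((0, R) + (2, 0))) := by
        refine Obs_mul (Obs_mono hF (Finset.Icc_subset_Icc inf_le_left le_sup_left))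
          (Obs_mono (Obs_shift hF _) (Finset.Icc_subset_Icc inf_le_right le_sup_right))
      refine rec_upper μ hm hC w1 w2 hW hR (Loc.ofObs hF) le_rfl hFr ?_ ?_
      · rw [st_obs μ hm hC w1 hff, st_obs μ hm hC w1 hF]
        exact (div_pos hκ hβ0).trans_le u1
      · rw [st_obs μ hm hC w1 hff, st_obs μ hm hC w1 hF, st_obs μ hm hC w1 hfs]
        exact u2)
    rw [abs_le]
    constructor <;> linarith [h6.1, h6.2]

end

end Pool.Agent.N726.TW
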